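import Mathlib

/-!
# Algebraic degree of Boolean functions
-/

set_option autoImplicit false

open Finset

namespace Pool.Agent.Lib.MP_4ac633_lc

/-- Boolean functions of algebraic degree at most `d`. -/
def Dg (n d : ℕ) : Submodule (ZMod 2) ((Fin n → ZMod 2) → ZMod 2) :=
  Submodule.span (ZMod 2) {g | ∃ S : Finset (Fin n), S.card ≤ d ∧ g = fun x => ∏ i ∈ S, x i}

theorem Dg_mono {n d e : ℕ} (h : d ≤ e) : Dg n d ≤ Dg n e := by
  apply Submodule.span_mono
  rintro _ ⟨S, hS, rfl⟩
  exact ⟨S, hS.trans h, rfl⟩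

/-- The algebraic normal form map. -/
def anf (n : ℕ) : (Finset (Fin n) → ZMod 2) →ₗ[ZMod 2] ((Fin n → ZMod 2) → ZMod 2) where
  toFun c := fun x => ∑ S : Finset (Fin n), c S * ∏ i ∈ S, x i
  map_add' c c' := by
    funext x
    simp only [Pi.add_apply, add_mul, sum_add_distrib]
  map_smul' a c := by
    funext x
    simp only [Pi.smul_apply, smul_eq_mul, mul_assoc, mul_sum, RingHom.id_apply]

theorem anf_apply (n : ℕ) (c : Finset (Fin n) → ZMod 2) (x : Fin n → ZMod 2) :
    anf n c x = ∑ S : Finset (Fin n), c S * ∏ i ∈ S, x i := rfl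

theorem mem_Dg_of_anf {n d : ℕ} {g : (Fin n → ZMod 2) → ZMod 2} (c : Finset (Fin n) → ZMod 2)
    (hc : ∀ S, c S ≠ 0 → S.card ≤ d) (hg : ∀ x, g x = ∑ S : Finset (Fin n), c S * ∏ i ∈ S, x i) :
    g ∈ Dg n d := by
  have e : g = ∑ S : Finset (Fin n), c S • (fun x : Fin n → ZMod 2 => ∏ i ∈ S, x i) := by
    funext x
    rw [hg x]
    simp [Finset.sum_apply]
  rw [e]
  apply Submodule.sum_mem
  intro S _
  by_cases h : c S = 0
  · rw [h, zero_smul]; exact Submodule.zero_mem _
  · exact Submodule.smul_mem _ _ (Submodule.subset_span ⟨S, hc S h, rfl⟩)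

theorem anf_of_mem_Dg {n d : ℕ} {g : (Fin n → ZMod 2) → ZMod 2} (hg : g ∈ Dg n d) :
    ∃ c : Finset (Fin n) → ZMod 2, (∀ S, c S ≠ 0 → S.card ≤ d) ∧
      ∀ x, g x = ∑ S : Finset (Fin n), c S * ∏ i ∈ S, x i := by
  classical
  induction hg using Submodule.span_induction with
  | mem g hg =>
    obtain ⟨S, hS, rfl⟩ := hg
    refine ⟨fun T => if T = S then 1 else 0, ?_, ?_⟩
    · intro T hT
      by_cases h : T = S
      · rw [h]; exact hS
      · simp [h] at hT
    · intro x
      rw [sum_eq_single_of_mem S (mem_univ _)]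
      · simp
      · intro T _ hT
        simp [hT]
  | zero => exact ⟨fun _ => 0, by simp, by simp⟩
  | add g g' _ _ h h' =>
    obtain ⟨c, hc1, hc2⟩ := h
    obtain ⟨c', hc1', hc2'⟩ := h'
    refine ⟨fun S => c S + c' S, ?_, ?_⟩
    · intro S hS
      by_cases h : c S = 0
      · apply hc1'
        intro h'
        exact hS (by simp only [h, h', add_zero])
      · exact hc1 S h
    · intro x
      simp only [Pi.add_apply, hc2 x, hc2' x, add_mul, sum_add_distrib]
  | smul a g _ h =>
    obtain ⟨c, hc1, hc2⟩ := h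
    refine ⟨fun S => a * c S, ?_, ?_⟩
    · intro S hS
      exact hc1 S (right_ne_zero_of_mul hS)
    · intro x
      simp only [Pi.smul_apply, hc2 x, smul_eq_mul, mul_sum, mul_assoc]

theorem coord_mul_mem {n d : ℕ} {g : (Fin n → ZMod 2) → ZMod 2} (hg : g ∈ Dg n d) (j : Fin n) :
    (fun x => x j * g x) ∈ Dg n (d + 1) := by
  classical
  induction hg using Submodule.span_induction with
  | mem g hg =>
    obtain ⟨S, hS, rfl⟩ := hg
    apply Submodule.subset_span
    refine ⟨insert j S, (card_insert_le j S).trans (by omega), ?_⟩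
    funext x
    change x j * ∏ i ∈ S, x i = ∏ i ∈ insert j S, x i
    by_cases hj : j ∈ S
    · rw [insert_eq_of_mem hj, ← mul_prod_erase S _ hj, ← mul_assoc]
      congr 1
      have : ∀ u : ZMod 2, u * u = u := by decide
      exact this _
    · rw [prod_insert hj]
  | zero =>
    have : (fun x : Fin n → ZMod 2 => x j * (0 : (Fin n → ZMod 2) → ZMod 2) x) = 0 := by
      funext x; simp
    rw [this]; exact Submodule.zero_mem _
  | add g g' _ _ h h' =>
    have : (fun x : Fin n → ZMod 2 => x j * (g + g') x)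
        = (fun x => x j * g x) + (fun x => x j * g' x) := by
      funext x; simp [mul_add]
    rw [this]; exact Submodule.add_mem _ h h'
  | smul a g _ h =>
    have : (fun x : Fin n → ZMod 2 => x j * (a • g) x) = a • (fun x => x j * g x) := by
      funext x; simp; ring
    rw [this]; exact Submodule.smul_mem _ _ h

theorem functional_mul_mem {n d : ℕ} {g : (Fin n → ZMod 2) → ZMod 2} (hg : g ∈ Dg n d)
    (l : (Fin n → ZMod 2) →ₗ[ZMod 2] ZMod 2) :
    (fun x => l x * g x) ∈ Dg n (d + 1) := by
  classical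
  have hl : ∀ x, l x = ∑ j, l (Pi.single j 1) * x j := by
    intro x
    conv_lhs => rw [LinearMap.pi_apply_eq_sum_univ l x]
    apply sum_congr rfl
    intro j _
    rw [smul_eq_mul, mul_comm]
    congr 2
    funext i
    simp [Pi.single_apply, eq_comm]
  have e : (fun x => l x * g x)
      = ∑ j, (l (Pi.single j 1)) • (fun x : Fin n → ZMod 2 => x j * g x) := by
    funext x
    rw [hl x, sum_mul]
    simp [Finset.sum_apply, mul_assoc]
  rw [e]
  exact Submodule.sum_mem _ fun j _ => Submodule.smul_mem _ _ (coord_mul_mem hg j)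

theorem one_mem_Dg (n d : ℕ) : (fun _ => 1 : (Fin n → ZMod 2) → ZMod 2) ∈ Dg n d := by
  apply Submodule.subset_span
  exact ⟨∅, by simp, by simp⟩

theorem affine_mul_mem {n d : ℕ} {g : (Fin n → ZMod 2) → ZMod 2} (hg : g ∈ Dg n d)
    (l : (Fin n → ZMod 2) →ₗ[ZMod 2] ZMod 2) (b : ZMod 2) :
    (fun x => (l x + b) * g x) ∈ Dg n (d + 1) := by
  have e : (fun x => (l x + b) * g x) = (fun x => l x * g x) + b • g := by
    funext x; simp [add_mul]
  rw [e]
  exact Submodule.add_mem _ (functional_mul_mem hg l)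
    (Submodule.smul_mem _ _ (Dg_mono (Nat.le_succ d) hg))

theorem prod_affine_mem {n : ℕ} {ι : Type} (l : ι → ((Fin n → ZMod 2) →ₗ[ZMod 2] ZMod 2))
    (b : ι → ZMod 2) (S : Finset ι) :
    (fun x => ∏ i ∈ S, (l i x + b i)) ∈ Dg n S.card := by
  classical
  induction S using Finset.induction_on with
  | empty => simpa using one_mem_Dg n 0
  | insert a S ha ih =>
    rw [card_insert_of_notMem ha]
    have := affine_mul_mem ih (l a) (b a)
    simpa [prod_insert ha] using this

/-- Composition with a linear map does not raise the degree. -/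
theorem monomial_comp_mem {n k : ℕ} (π : (Fin n → ZMod 2) →ₗ[ZMod 2] (Fin k → ZMod 2))
    (S : Finset (Fin k)) : (fun x => ∏ i ∈ S, π x i) ∈ Dg n S.card := by
  have := prod_affine_mem (fun i => (LinearMap.proj i : (Fin k → ZMod 2) →ₗ[ZMod 2] ZMod 2).comp π)
    (fun _ => 0) S
  simpa using this

theorem Dg_top (n : ℕ) : Dg n n = ⊤ := by
  classical
  rw [eq_top_iff]
  intro g _
  have e : g = ∑ a : Fin n → ZMod 2, g a • (fun x : Fin n → ZMod 2 =>
      ∏ i, ((LinearMap.proj i : (Fin n → ZMod 2) →ₗ[ZMod 2] ZMod 2) x + (a i + 1))) := by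
    funext x
    simp only [Finset.sum_apply, Pi.smul_apply, LinearMap.proj_apply, smul_eq_mul]
    rw [sum_eq_single_of_mem x (mem_univ _)]
    · have : ∏ i, (x i + (x i + 1)) = 1 := by
        apply prod_eq_one
        intro i _
        have : ∀ u : ZMod 2, u + (u + 1) = 1 := by decide
        exact this _
      rw [this, mul_one]
    · intro a _ hax
      obtain ⟨i, hi⟩ := Function.ne_iff.mp hax
      have : ∏ i, (x i + (a i + 1)) = 0 := by
        apply prod_eq_zero (mem_univ i)
        have : ∀ u v : ZMod 2, u ≠ v → v + (u + 1) = 0 := by decide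
        exact this _ _ hi
      rw [this, mul_zero]
  rw [e]
  apply Submodule.sum_mem
  intro a _
  apply Submodule.smul_mem
  have := prod_affine_mem (fun i => (LinearMap.proj i : (Fin n → ZMod 2) →ₗ[ZMod 2] ZMod 2))
    (fun i => a i + 1) (univ : Finset (Fin n))
  simpa using this

theorem anf_surjective (n : ℕ) : Function.Surjective (anf n) := by
  intro g
  have hg : g ∈ Dg n n := by rw [Dg_top]; exact Submodule.mem_top
  obtain ⟨c, _, hc⟩ := anf_of_mem_Dg hg
  exact ⟨c, funext fun x => (hc x).symm⟩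

theorem anf_bijective (n : ℕ) : Function.Bijective (anf n) := by
  refine ⟨?_, anf_surjective n⟩
  apply (LinearMap.injective_iff_surjective_of_finrank_eq_finrank ?_).mpr (anf_surjective n)
  rw [Module.finrank_fintype_fun_eq_card, Module.finrank_fintype_fun_eq_card]
  simp

/-- The linear equivalence between Boolean functions and their algebraic normal forms. -/
noncomputable def coefEquiv (n : ℕ) :
    ((Fin n → ZMod 2) → ZMod 2) ≃ₗ[ZMod 2] (Finset (Fin n) → ZMod 2) :=
  (LinearEquiv.ofBijective (anf n) (anf_bijective n)).symm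

theorem coefEquiv_spec (n : ℕ) (g : (Fin n → ZMod 2) → ZMod 2) (x : Fin n → ZMod 2) :
    g x = ∑ S : Finset (Fin n), coefEquiv n g S * ∏ i ∈ S, x i := by
  have h : anf n (coefEquiv n g) = g := by
    unfold coefEquiv
    exact LinearEquiv.apply_symm_apply (LinearEquiv.ofBijective (anf n) (anf_bijective n)) g
  rw [← anf_apply, h]

end Pool.Agent.Lib.MP_4ac633_lc
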