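import Pool.Agent.Lib.MP_4ac633_lc.Vanish

/-!
# Bentness of the Tu-Deng function
-/

set_option autoImplicit false
set_option linter.unusedSectionVars false

open Finset

namespace Pool.Agent.Lib.MP_4ac633_lc

/-- The sign of an element of `F_2`. -/
def sg (u : ZMod 2) : ℤ := (-1) ^ u.val

theorem sg_add (u v : ZMod 2) : sg (u + v) = sg u * sg v := by
  revert u v; decide

theorem eq_one_of_ne_zero {u : ZMod 2} (h : u ≠ 0) : u = 1 := by
  revert u; decide

theorem sg_zero : sg 0 = 1 := by decide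
theorem sg_one : sg 1 = -1 := by decide

theorem sum_sg {G : Type} [AddCommGroup G] [Module (ZMod 2) G] [Fintype G]
    (M : G →ₗ[ZMod 2] ZMod 2) (hM : M ≠ 0) : ∑ g : G, sg (M g) = 0 := by
  obtain ⟨g0, hg0⟩ : ∃ g0, M g0 ≠ 0 := by
    by_contra hcon
    push Not at hcon
    exact hM (LinearMap.ext hcon)
  have h1 : M g0 = 1 := by
    have : ∀ u : ZMod 2, u ≠ 0 → u = 1 := by decide
    exact this _ hg0
  have h2 : ∑ g : G, sg (M g) = ∑ g : G, sg (M (g + g0)) :=
    (Equiv.sum_comp (Equiv.addRight g0) (fun g => sg (M g))).symm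
  have h3 : ∑ g : G, sg (M (g + g0)) = - ∑ g : G, sg (M g) := by
    rw [← sum_neg_distrib]
    apply sum_congr rfl
    intro g _
    rw [map_add, sg_add, h1, sg_one]
    ring
  linarith

theorem sum_sg_zero {G : Type} [AddCommGroup G] [Module (ZMod 2) G] [Fintype G]
    (M : G →ₗ[ZMod 2] ZMod 2) (hM : M = 0) : ∑ g : G, sg (M g) = Fintype.card G := by
  subst hM
  simp [sg_zero]

variable {K : Type} [Field K] [Fintype K] [DecidableEq K] [Algebra (ZMod 2) K]

/-- The support of the Tu-Deng function: the nonzero points of `2 ^ (m - 1)` consecutive lines. -/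
def D (m : ℕ) (α : K) (p : K × K) : Prop := p.2 ≠ 0 ∧ ∃ l < 2 ^ (m - 1), p.1 = α ^ l * p.2

instance (m : ℕ) (α : K) : DecidablePred (D m α) := fun p => by
  unfold D; infer_instance

theorem sum_D (m : ℕ) (hm : 1 ≤ m) (α : K) (hα : ∀ i < 2 ^ m - 1, ∀ j < 2 ^ m - 1,
    α ^ i = α ^ j → i = j) (f : K × K → ℤ) (hf : f (0, 0) = 1) :
    ∑ p ∈ univ.filter (D m α), f p
      = ∑ l ∈ range (2 ^ (m - 1)), (∑ y : K, f (α ^ l * y, y) - 1) := by
  have hle : 2 ^ (m - 1) ≤ 2 ^ m - 1 := by
    have h1 : 2 ^ m = 2 * 2 ^ (m - 1) := by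
      have : m = (m - 1) + 1 := by omega
      conv_lhs => rw [this]
      rw [pow_succ]; ring
    have h2 : 1 ≤ 2 ^ (m - 1) := Nat.one_le_two_pow
    omega
  have e1 : ∀ l, ∑ y : K, f (α ^ l * y, y) - 1
      = ∑ y ∈ univ.filter (fun y : K => y ≠ 0), f (α ^ l * y, y) := by
    intro l
    have : (univ.filter (fun y : K => y ≠ 0)) = univ.erase (0 : K) := by
      ext y; simp
    rw [this, ← add_sum_erase univ (fun y : K => f (α ^ l * y, y)) (mem_univ (0 : K))]
    simp only [mul_zero, hf]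
    ring
  simp_rw [e1]
  rw [← sum_product']
  symm
  apply sum_bij (fun (q : ℕ × K) _ => (α ^ q.1 * q.2, q.2))
  · intro q hq
    rw [mem_product, mem_range, mem_filter] at hq
    rw [mem_filter]
    exact ⟨mem_univ _, hq.2.2, q.1, hq.1, rfl⟩
  · intro q hq q' hq' h
    rw [mem_product, mem_range, mem_filter] at hq hq'
    have h2 : q.2 = q'.2 := (Prod.ext_iff.mp h).2
    have h1 : α ^ q.1 * q.2 = α ^ q'.1 * q'.2 := (Prod.ext_iff.mp h).1
    rw [← h2] at h1
    have h3 := mul_right_cancel₀ hq.2.2 h1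
    exact Prod.ext (hα q.1 (by omega) q'.1 (by omega) h3) h2
  · intro p hp
    rw [mem_filter] at hp
    obtain ⟨_, hp2, l, hl, hpl⟩ := hp
    refine ⟨(l, p.2), ?_, ?_⟩
    · rw [mem_product, mem_range, mem_filter]
      exact ⟨hl, mem_univ _, hp2⟩
    · exact Prod.ext hpl.symm rfl
  · intro q _
    rfl

theorem bent_aux (m : ℕ) (hm : 1 ≤ m) (hcard : Fintype.card K = 2 ^ m) (α : K)
    (hα : ∀ i < 2 ^ m - 1, ∀ j < 2 ^ m - 1, α ^ i = α ^ j → i = j)
    (L : K × K →ₗ[ZMod 2] ZMod 2) :
    (∑ p : K × K, sg ((if D m α p then 1 else 0) + L p)) ^ 2 = 2 ^ (2 * m) := by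
  have hY : (2 : ℤ) ^ m = 2 * 2 ^ (m - 1) := by
    have : m = (m - 1) + 1 := by omega
    conv_lhs => rw [this]
    rw [pow_succ]; ring
  have hle : 2 ^ (m - 1) ≤ 2 ^ m - 1 := by
    have h1 : 2 ^ m = 2 * 2 ^ (m - 1) := by exact_mod_cast hY
    have h2 : 1 ≤ 2 ^ (m - 1) := Nat.one_le_two_pow
    omega
  -- split off the support
  have split : ∑ p : K × K, sg ((if D m α p then 1 else 0) + L p)
      = ∑ p : K × K, sg (L p) - 2 * ∑ p ∈ univ.filter (D m α), sg (L p) := by
    rw [sum_filter, mul_sum, ← sum_sub_distrib]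
    apply sum_congr rfl
    intro p _
    rw [sg_add]
    by_cases h : D m α p
    · simp only [if_pos h, sg_one]; ring
    · simp only [if_neg h, sg_zero]; ring
  rw [split, sum_D m hm α hα (fun p => sg (L p)) (by
    have : L ((0 : K), (0 : K)) = 0 := by
      have : ((0 : K), (0 : K)) = 0 := rfl
      rw [this, map_zero]
    rw [this, sg_zero])]
  -- the line functionals
  set M : ℕ → (K →ₗ[ZMod 2] ZMod 2) := fun l =>
    L.comp ((LinearMap.mulLeft (ZMod 2) (α ^ l)).prod LinearMap.id) with hMdef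
  have hM : ∀ l (y : K), L (α ^ l * y, y) = M l y := fun l y => rfl
  by_cases hL : L = 0
  · have h1 : ∑ p : K × K, sg (L p) = (2 : ℤ) ^ m * 2 ^ m := by
      rw [sum_sg_zero L hL, Fintype.card_prod, hcard]
      push_cast; ring
    have h2 : ∀ l, ∑ y : K, sg (L (α ^ l * y, y)) = (2 : ℤ) ^ m := by
      intro l
      have : ∀ y : K, sg (L (α ^ l * y, y)) = 1 := by
        intro y
        rw [hL]
        exact sg_zero
      simp only [this]
      rw [sum_const, card_univ, hcard]
      simp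
    rw [h1]
    simp only [h2]
    rw [sum_const, card_range, nsmul_eq_mul]
    push_cast
    have : ((2 : ℤ) ^ m * 2 ^ m - 2 * (2 ^ (m - 1) * (2 ^ m - 1))) = 2 ^ m := by
      have : (2 : ℤ) * (2 ^ (m - 1) * (2 ^ m - 1)) = 2 ^ m * (2 ^ m - 1) := by
        rw [← mul_assoc, ← hY]
      rw [this]; ring
    rw [this, ← pow_mul, Nat.mul_comm]
  · have h1 : ∑ p : K × K, sg (L p) = 0 := sum_sg L hL
    -- at most one vanishing line
    have huniq : ∀ l < 2 ^ (m - 1), ∀ l' < 2 ^ (m - 1), M l = 0 → M l' = 0 → l = l' := by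
      intro l hl l' hl' h h'
      by_contra hne
      have hα' : α ^ l ≠ α ^ l' := fun hh => hne (hα l (by omega) l' (by omega) hh)
      apply hL
      have hx : ∀ x : K, L (x, 0) = 0 := by
        intro x
        set y := x / (α ^ l - α ^ l') with hy
        have e : (x, (0 : K)) = (α ^ l * y, y) - (α ^ l' * y, y) := by
          have hne' : α ^ l - α ^ l' ≠ 0 := sub_ne_zero.mpr hα'
          rw [Prod.mk_sub_mk, sub_self, ← sub_mul, hy, mul_div_cancel₀ _ hne']
        rw [e, map_sub, hM, hM, h, h']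
        simp
      have hy : ∀ y : K, L (0, y) = 0 := by
        intro y
        have e : ((0 : K), y) = (α ^ l * y, y) - (α ^ l * y, 0) := by
          rw [Prod.mk_sub_mk, sub_self, sub_zero]
        rw [e, map_sub, hM, hx, h]
        simp
      ext p
      · simpa using hx p
      · simpa using hy p
    have h3 : ∑ l ∈ range (2 ^ (m - 1)), (∑ y : K, sg (L (α ^ l * y, y)) - 1)
        = 2 ^ m * (((range (2 ^ (m - 1))).filter (fun l => M l = 0)).card : ℤ)
          - 2 ^ (m - 1) := by
      classical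
      rw [sum_sub_distrib]
      have : ∀ l ∈ range (2 ^ (m - 1)), ∑ y : K, sg (L (α ^ l * y, y))
          = if M l = 0 then (2 : ℤ) ^ m else 0 := by
        intro l _
        by_cases h : M l = 0
        · rw [if_pos h]
          have := sum_sg_zero (M l) h
          rw [hcard] at this
          simpa [hM] using this
        · rw [if_neg h]
          have := sum_sg (M l) h
          simpa [hM] using this
      rw [sum_congr rfl this, ← sum_filter, sum_const, nsmul_eq_mul]
      simp
      ring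
    have h4 : ((range (2 ^ (m - 1))).filter (fun l => M l = 0)).card ≤ 1 := by
      apply card_le_one.mpr
      intro l hl l' hl'
      rw [mem_filter, mem_range] at hl hl'
      exact huniq l hl.1 l' hl'.1 hl.2 hl'.2
    rw [h1, h3]
    have h5 : ((range (2 ^ (m - 1))).filter (fun l => M l = 0)).card = 0 ∨
        ((range (2 ^ (m - 1))).filter (fun l => M l = 0)).card = 1 := by omega
    have h6 : (2 : ℤ) ^ (2 * m) = (2 ^ m) ^ 2 := by rw [← pow_mul, Nat.mul_comm]
    rw [h6]
    rcases h5 with h | h <;> rw [h] <;> push_cast <;> rw [hY] <;> ring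

end Pool.Agent.Lib.MP_4ac633_lc
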