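import Pool.Agent.Lib.MP_4ac633_lc.Count

/-!
# Carry analysis for the Tu-Deng counting function

`S F w c c'` is the transfer recursion along the word `w` (binary digits of `t`, least significant
first), from the incoming carry `c` to the outgoing carry `c'`; `F` is a test function evaluated at
`ds a + ds b - k`.
-/

set_option autoImplicit false
set_option linter.unusedSimpArgs false

open Finset

namespace Pool.Agent.Lib.MP_4ac633_lc

/-- The value of a word of binary digits, least significant digit first. -/
def val : List Bool → ℕ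
  | [] => 0
  | b :: u => b.toNat + 2 * val u

/-- The transfer recursion. -/
def S : (ℤ → ℚ) → List Bool → Bool → Bool → ℚ
  | F, [], c, c' => if c = c' then F 0 else 0
  | F, true :: u, false, c' => S F u false c'
  | F, true :: u, true, c' => (S (fun n => F (n - 1)) u false c' + S (fun n => F (n + 1)) u true c') / 2
  | F, false :: u, false, c' => (S (fun n => F (n - 1)) u false c' + S (fun n => F (n + 1)) u true c') / 2
  | F, false :: u, true, c' => S F u true c'

/-- The weighted number of pairs `(a, b)` in `[0, 2 ^ k)` with `a + b + c = t + 2 ^ k * c'`. -/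
def cnt (F : ℤ → ℚ) (k t c c' : ℕ) : ℚ :=
  ∑ a ∈ range (2 ^ k), ∑ b ∈ range (2 ^ k),
    if a + b + c = t + 2 ^ k * c' then F ((ds a : ℤ) + ds b - k) else 0

theorem sum_range_two_mul (f : ℕ → ℚ) (n : ℕ) :
    ∑ i ∈ range (2 * n), f i = ∑ j ∈ range n, (f (2 * j) + f (2 * j + 1)) := by
  induction n with
  | zero => simp
  | succ n ihn =>
    rw [Nat.mul_succ, sum_range_succ, sum_range_succ, ihn, sum_range_succ]
    ring

theorem cnt_split (F : ℤ → ℚ) (k t c c' : ℕ) :
    cnt F (k + 1) t c c' = ∑ a ∈ range (2 ^ k), ∑ b ∈ range (2 ^ k),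
      ((if 2 * a + 2 * b + c = t + 2 * (2 ^ k * c') then F ((ds a : ℤ) + ds b - k - 1) else 0)
      + (if 2 * a + 2 * b + c + 1 = t + 2 * (2 ^ k * c') then F ((ds a : ℤ) + ds b - k) else 0)
      + (if 2 * a + 2 * b + c + 1 = t + 2 * (2 ^ k * c') then F ((ds a : ℤ) + ds b - k) else 0)
      + (if 2 * a + 2 * b + c + 2 = t + 2 * (2 ^ k * c')
          then F ((ds a : ℤ) + ds b - k + 1) else 0)) := by
  unfold cnt
  rw [show (2 : ℕ) ^ (k + 1) = 2 * 2 ^ k by rw [pow_succ]; ring, sum_range_two_mul]
  apply sum_congr rfl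
  intro a _
  rw [sum_range_two_mul, sum_range_two_mul, ← sum_add_distrib]
  apply sum_congr rfl
  intro b _
  rw [ds_two_mul, ds_two_mul_add_one, ds_two_mul, ds_two_mul_add_one]
  push_cast
  have e1 : ((ds a : ℤ) + ds b - (k + 1)) = (ds a : ℤ) + ds b - k - 1 := by ring
  have e2 : ((ds a : ℤ) + (ds b + 1) - (k + 1)) = (ds a : ℤ) + ds b - k := by ring
  have e3 : ((ds a : ℤ) + 1 + ds b - (k + 1)) = (ds a : ℤ) + ds b - k := by ring
  have e4 : ((ds a : ℤ) + 1 + (ds b + 1) - (k + 1)) = (ds a : ℤ) + ds b - k + 1 := by ring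
  rw [e1, e2, e3, e4]
  have c1 : (2 * a + 2 * b + c = t + 2 * 2 ^ k * c') ↔ (2 * a + 2 * b + c = t + 2 * (2 ^ k * c')) := by
    rw [Nat.mul_assoc]
  have c2 : (2 * a + (2 * b + 1) + c = t + 2 * 2 ^ k * c')
      ↔ (2 * a + 2 * b + c + 1 = t + 2 * (2 ^ k * c')) := by
    rw [Nat.mul_assoc]; omega
  have c3 : (2 * a + 1 + 2 * b + c = t + 2 * 2 ^ k * c')
      ↔ (2 * a + 2 * b + c + 1 = t + 2 * (2 ^ k * c')) := by
    rw [Nat.mul_assoc]; omega
  have c4 : (2 * a + 1 + (2 * b + 1) + c = t + 2 * 2 ^ k * c')
      ↔ (2 * a + 2 * b + c + 2 = t + 2 * (2 ^ k * c')) := by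
    rw [Nat.mul_assoc]; omega
  simp only [c1, c2, c3, c4]
  ring

/-- **Carry analysis**: the weighted count is `2 ^ k` times the transfer recursion. -/
theorem cnt_eq (w : List Bool) : ∀ (F : ℤ → ℚ) (c c' : Bool),
    cnt F w.length (val w) c.toNat c'.toNat = 2 ^ w.length * S F w c c' := by
  induction w with
  | nil =>
    intro F c c'
    unfold cnt
    cases c <;> cases c' <;> simp [S, val, ds_zero]
  | cons τ u ih =>
    intro F c c'
    rw [List.length_cons, cnt_split]
    set k := u.length with hk
    set X := 2 ^ k * c'.toNat with hX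
    -- the three basic sums
    have s0 : ∀ (G : ℤ → ℚ) (e : Bool), ∑ a ∈ range (2 ^ k), ∑ b ∈ range (2 ^ k),
        (if a + b + e.toNat = val u + X then G ((ds a : ℤ) + ds b - k) else 0)
          = 2 ^ k * S G u e c' := by
      intro G e
      exact ih G e c'
    cases τ <;> cases c
    · -- digit 0, carry 0
      simp only [val, Bool.toNat_false, S]
      have h1 : ∀ a b : ℕ, (2 * a + 2 * b + 0 = 0 + 2 * val u + 2 * X)
          ↔ (a + b + (false).toNat = val u + X) := by
        intro a b; simp only [Bool.toNat_false]; omega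
      have h2 : ∀ a b : ℕ, ¬ (2 * a + 2 * b + 0 + 1 = 0 + 2 * val u + 2 * X) := by
        intro a b; omega
      have h3 : ∀ a b : ℕ, (2 * a + 2 * b + 0 + 2 = 0 + 2 * val u + 2 * X)
          ↔ (a + b + (true).toNat = val u + X) := by
        intro a b; simp only [Bool.toNat_true]; omega
      simp only [h1, h2, h3]
      simp only [if_false, add_zero, zero_add, sum_add_distrib]
      have t1 := s0 (fun n => F (n - 1)) false
      have t2 := s0 (fun n => F (n + 1)) true
      rw [t1, t2, pow_succ]
      ring
    · -- digit 0, carry 1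
      simp only [val, Bool.toNat_false, Bool.toNat_true, S]
      have h1 : ∀ a b : ℕ, ¬ (2 * a + 2 * b + 1 = 0 + 2 * val u + 2 * X) := by
        intro a b; omega
      have h2 : ∀ a b : ℕ, (2 * a + 2 * b + 1 + 1 = 0 + 2 * val u + 2 * X)
          ↔ (a + b + (true).toNat = val u + X) := by
        intro a b; simp only [Bool.toNat_true]; omega
      have h3 : ∀ a b : ℕ, ¬ (2 * a + 2 * b + 1 + 2 = 0 + 2 * val u + 2 * X) := by
        intro a b; omega
      simp only [h1, h2, h3]
      simp only [if_false, add_zero, zero_add, sum_add_distrib]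
      have t1 := s0 F true
      rw [t1, pow_succ]
      ring
    · -- digit 1, carry 0
      simp only [val, Bool.toNat_false, Bool.toNat_true, S]
      have h1 : ∀ a b : ℕ, ¬ (2 * a + 2 * b + 0 = 1 + 2 * val u + 2 * X) := by
        intro a b; omega
      have h2 : ∀ a b : ℕ, (2 * a + 2 * b + 0 + 1 = 1 + 2 * val u + 2 * X)
          ↔ (a + b + (false).toNat = val u + X) := by
        intro a b; simp only [Bool.toNat_false]; omega
      have h3 : ∀ a b : ℕ, ¬ (2 * a + 2 * b + 0 + 2 = 1 + 2 * val u + 2 * X) := by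
        intro a b; omega
      simp only [h1, h2, h3]
      simp only [if_false, add_zero, zero_add, sum_add_distrib]
      have t1 := s0 F false
      rw [t1, pow_succ]
      ring
    · -- digit 1, carry 1
      simp only [val, Bool.toNat_true, S]
      have h1 : ∀ a b : ℕ, (2 * a + 2 * b + 1 = 1 + 2 * val u + 2 * X)
          ↔ (a + b + (false).toNat = val u + X) := by
        intro a b; simp only [Bool.toNat_false]; omega
      have h2 : ∀ a b : ℕ, ¬ (2 * a + 2 * b + 1 + 1 = 1 + 2 * val u + 2 * X) := by
        intro a b; omega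
      have h3 : ∀ a b : ℕ, (2 * a + 2 * b + 1 + 2 = 1 + 2 * val u + 2 * X)
          ↔ (a + b + (true).toNat = val u + X) := by
        intro a b; simp only [Bool.toNat_true]; omega
      simp only [h1, h2, h3]
      simp only [if_false, add_zero, zero_add, sum_add_distrib]
      have t1 := s0 (fun n => F (n - 1)) false
      have t2 := s0 (fun n => F (n + 1)) true
      rw [t1, t2, pow_succ]
      ring

/-- The indicator of the negative integers. -/
def neg (n : ℤ) : ℚ := if n < 0 then 1 else 0

/-- The Tu-Deng counting function as a trace of the transfer recursion. -/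
theorem card_eq_trace (m t : ℕ) (hm : 1 ≤ m) (ht : t < 2 ^ m - 1) :
    ((((range (2 ^ m - 1)).filter
      (fun i => ds i + ds (refl (2 ^ m - 1) t i) ≤ m - 1)).card : ℕ) : ℚ)
      = cnt neg m t 0 0 + cnt neg m t 1 1 := by
  have hN : 2 ^ m = (2 ^ m - 1) + 1 := by omega
  have hdN : ds (2 ^ m - 1) = m := ds_two_pow_sub_one m
  set N := 2 ^ m - 1 with hNdef
  have c00 : cnt neg m t 0 0 = ∑ a ∈ range (2 ^ m),
      (if a ≤ t then neg ((ds a : ℤ) + ds (t - a) - m) else 0) := by
    unfold cnt
    apply sum_congr rfl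
    intro a ha
    rw [mem_range] at ha
    by_cases h : a ≤ t
    · rw [if_pos h, sum_eq_single_of_mem (t - a) (mem_range.mpr (by omega))]
      · rw [if_pos (by omega)]
      · intro b _ hb
        rw [if_neg (by omega)]
    · rw [if_neg h]
      apply sum_eq_zero
      intro b _
      rw [if_neg (by omega)]
  have c11 : cnt neg m t 1 1 = ∑ a ∈ range (2 ^ m),
      (if t ≤ a then neg ((ds a : ℤ) + ds (t + N - a) - m) else 0) := by
    unfold cnt
    apply sum_congr rfl
    intro a ha
    rw [mem_range] at ha
    by_cases h : t ≤ a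
    · rw [if_pos h, sum_eq_single_of_mem (t + N - a) (mem_range.mpr (by omega))]
      · rw [if_pos (by omega)]
      · intro b _ hb
        rw [if_neg (by omega)]
    · rw [if_neg h]
      apply sum_eq_zero
      intro b hb
      rw [mem_range] at hb
      rw [if_neg (by omega)]
  rw [c00, c11, ← sum_add_distrib, hN, sum_range_succ, card_filter]
  push_cast
  have hlast : ((if N ≤ t then neg ((ds N : ℤ) + ds (t - N) - m) else 0)
      + (if t ≤ N then neg ((ds N : ℤ) + ds (t + N - N) - m) else 0)) = 0 := by
    rw [if_neg (by omega), if_pos (by omega), hdN]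
    unfold neg
    rw [if_neg (by omega)]
    simp
  rw [hlast, add_zero]
  apply sum_congr rfl
  intro i hi
  rw [mem_range] at hi
  unfold refl neg
  rcases lt_trichotomy i t with h | h | h
  · have e : (t + N - i) % N = t - i := by
      have : t + N - i = (t - i) + N := by omega
      rw [this, Nat.add_mod_right, Nat.mod_eq_of_lt (by omega)]
    rw [e, if_pos h.le, if_neg (show ¬ t ≤ i by omega), add_zero]
    by_cases h2 : ds i + ds (t - i) ≤ m - 1
    · rw [if_pos h2, if_pos (by omega)]
    · rw [if_neg h2, if_neg (by omega)]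
  · subst h
    have e : (i + N - i) % N = 0 := by
      have : i + N - i = N := by omega
      rw [this, Nat.mod_self]
    have e2 : i + N - i = N := by omega
    rw [e, if_pos le_rfl, if_pos le_rfl, e2, Nat.sub_self, ds_zero, hdN]
    rw [if_neg (show ¬ ((ds i : ℤ) + (m : ℕ) - m < 0) by omega), add_zero]
    by_cases h2 : ds i ≤ m - 1
    · rw [if_pos h2, if_pos (by push_cast; omega), add_zero]
    · rw [if_neg h2, if_neg (by push_cast; omega), add_zero]
  · have e : (t + N - i) % N = t + N - i := Nat.mod_eq_of_lt (by omega)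
    rw [e, if_neg (show ¬ i ≤ t by omega), if_pos h.le, zero_add]
    by_cases h2 : ds i + ds (t + N - i) ≤ m - 1
    · rw [if_pos h2, if_pos (by omega)]
    · rw [if_neg h2, if_neg (by omega)]

end Pool.Agent.Lib.MP_4ac633_lc
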