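import Pool.Agent.Lib.MP_4ac633_lc.DigitSum

/-!
# A second moment bound for the Tu-Deng counting function
-/

set_option autoImplicit false

namespace Pool.Agent.Lib.MP_4ac633_lc

/-- The reflection `i ↦ t - i` modulo `N`, on `[0, N)`. -/
def refl (N t i : ℕ) : ℕ := (t + N - i) % N

theorem refl_lt {N t i : ℕ} (hN : 0 < N) : refl N t i < N := Nat.mod_lt _ hN

theorem refl_refl {N t i : ℕ} (ht : t < N) (hi : i < N) : refl N t (refl N t i) = i := by
  unfold refl
  rcases Nat.lt_or_ge t i with h | h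
  · have e1 : (t + N - i) % N = t + N - i := Nat.mod_eq_of_lt (by omega)
    rw [e1]
    have e2 : t + N - (t + N - i) = i := by omega
    rw [e2, Nat.mod_eq_of_lt hi]
  · have e1 : (t + N - i) % N = t - i := by
      have : t + N - i = (t - i) + N := by omega
      rw [this, Nat.add_mod_right, Nat.mod_eq_of_lt (by omega)]
    rw [e1]
    have e2 : t + N - (t - i) = i + N := by omega
    rw [e2, Nat.add_mod_right, Nat.mod_eq_of_lt hi]

theorem sum_refl {N t : ℕ} (ht : t < N) (F : ℕ → ℤ) :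
    ∑ i ∈ Finset.range N, F (refl N t i) = ∑ i ∈ Finset.range N, F i := by
  have hN : 0 < N := by omega
  refine Finset.sum_nbij' (fun i => refl N t i) (fun i => refl N t i) ?_ ?_ ?_ ?_ ?_
  · intro i _; exact Finset.mem_range.mpr (refl_lt hN)
  · intro i _; exact Finset.mem_range.mpr (refl_lt hN)
  · intro i hi; exact refl_refl ht (Finset.mem_range.mp hi)
  · intro i hi; exact refl_refl ht (Finset.mem_range.mp hi)
  · intro i _; rfl

theorem card_lt (m d t : ℕ) (hd : 1 ≤ d) (hdm : d < m) (ha : m ≤ (m - d) ^ 2)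
    (ht : t < 2 ^ m - 1) :
    ((Finset.range (2 ^ m - 1)).filter
      (fun i => ds i + ds (refl (2 ^ m - 1) t i) ≤ d)).card < 2 ^ (m - 1) := by
  set N := 2 ^ m - 1 with hN
  have hpow : 2 ^ m = N + 1 := by
    have : 1 ≤ 2 ^ m := Nat.one_le_two_pow
    omega
  have hdsN : ds N = m := ds_two_pow_sub_one m
  set u : ℕ → ℤ := fun i => 2 * (ds i : ℤ) - m with hu
  have s1 : ∑ i ∈ Finset.range N, u i = -(m : ℤ) := by
    have h := sum_ds_one m
    rw [hpow, Finset.sum_range_succ, hdsN] at h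
    have h' : ∑ i ∈ Finset.range N, u i + (2 * (m : ℤ) - m) = 0 := h
    linarith
  have s2 : ∑ i ∈ Finset.range N, u i ^ 2 = (m : ℤ) * 2 ^ m - (m : ℤ) ^ 2 := by
    have h := sum_ds_sq m
    have hr : Finset.range (2 ^ m) = Finset.range (N + 1) := by rw [hpow]
    rw [hr, Finset.sum_range_succ, hdsN] at h
    have h' : ∑ i ∈ Finset.range N, u i ^ 2 + (2 * (m : ℤ) - m) ^ 2 = (m : ℤ) * 2 ^ m := h
    nlinarith [h']
  have s1' : ∑ i ∈ Finset.range N, u (refl N t i) = -(m : ℤ) := by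
    rw [sum_refl ht u, s1]
  have s2' : ∑ i ∈ Finset.range N, u (refl N t i) ^ 2 = (m : ℤ) * 2 ^ m - (m : ℤ) ^ 2 := by
    rw [sum_refl ht (fun i => u i ^ 2), s2]
  set a : ℤ := (m : ℤ) - d with hadef
  have ha1 : 1 ≤ a := by omega
  have hma : (m : ℤ) ≤ a ^ 2 := by
    have h : ((m : ℕ) : ℤ) ≤ (((m - d) ^ 2 : ℕ) : ℤ) := by exact_mod_cast ha
    have h2 : (((m - d) ^ 2 : ℕ) : ℤ) = a ^ 2 := by
      push_cast [Nat.cast_sub hdm.le]
      rfl
    rw [h2] at h
    exact h
  set B := (Finset.range N).filter (fun i => ds i + ds (refl N t i) ≤ d) with hB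
  have total : ∑ i ∈ Finset.range N, (u i + u (refl N t i) - 2 * a) ^ 2
      ≤ 4 * ((m : ℤ) * 2 ^ m - (m : ℤ) ^ 2) + 8 * a * m + 4 * a ^ 2 * N := by
    calc ∑ i ∈ Finset.range N, (u i + u (refl N t i) - 2 * a) ^ 2
        ≤ ∑ i ∈ Finset.range N, (2 * u i ^ 2 + 2 * u (refl N t i) ^ 2
            - 4 * a * u i - 4 * a * u (refl N t i) + 4 * a ^ 2) := by
          apply Finset.sum_le_sum
          intro i _
          nlinarith [sq_nonneg (u i - u (refl N t i))]
      _ = 4 * ((m : ℤ) * 2 ^ m - (m : ℤ) ^ 2) + 8 * a * m + 4 * a ^ 2 * N := by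
          rw [Finset.sum_add_distrib, Finset.sum_sub_distrib, Finset.sum_sub_distrib,
            Finset.sum_add_distrib, ← Finset.mul_sum, ← Finset.mul_sum, ← Finset.mul_sum,
            ← Finset.mul_sum, s1, s1', s2, s2']
          simp only [Finset.sum_const, Finset.card_range, nsmul_eq_mul]
          ring
  have low : 16 * a ^ 2 * (B.card : ℤ)
      ≤ ∑ i ∈ Finset.range N, (u i + u (refl N t i) - 2 * a) ^ 2 := by
    calc 16 * a ^ 2 * (B.card : ℤ) = ∑ _i ∈ B, 16 * a ^ 2 := by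
          rw [Finset.sum_const, nsmul_eq_mul]; ring
      _ ≤ ∑ i ∈ B, (u i + u (refl N t i) - 2 * a) ^ 2 := by
          apply Finset.sum_le_sum
          intro i hi
          have hi2 : ds i + ds (refl N t i) ≤ d := (Finset.mem_filter.mp hi).2
          have h3 : u i + u (refl N t i) ≤ -2 * a := by
            have : (ds i : ℤ) + (ds (refl N t i) : ℤ) ≤ d := by exact_mod_cast hi2
            simp only [hu, hadef]
            linarith
          nlinarith
      _ ≤ ∑ i ∈ Finset.range N, (u i + u (refl N t i) - 2 * a) ^ 2 := by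
          apply Finset.sum_le_sum_of_subset_of_nonneg (Finset.filter_subset _ _)
          intro i _ _
          positivity
  by_contra hcon
  push Not at hcon
  have hY : (2 : ℤ) ^ m = 2 * 2 ^ (m - 1) := by
    have : m = (m - 1) + 1 := by omega
    conv_lhs => rw [this]
    rw [pow_succ]; ring
  have hNz : (N : ℤ) = 2 ^ m - 1 := by
    have : ((2 ^ m : ℕ) : ℤ) = (N : ℤ) + 1 := by exact_mod_cast hpow
    push_cast at this
    linarith
  have hc : (2 : ℤ) ^ (m - 1) ≤ B.card := by exact_mod_cast hcon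
  have hYpos : (0 : ℤ) < 2 ^ (m - 1) := by positivity
  have key := le_trans low total
  rw [hNz, hY] at key
  have hd' : (1 : ℤ) ≤ (m : ℤ) - a := by
    rw [hadef]; have : (1 : ℤ) ≤ d := by exact_mod_cast hd
    linarith
  have k1 : 16 * a ^ 2 * 2 ^ (m - 1) ≤ 16 * a ^ 2 * (B.card : ℤ) :=
    mul_le_mul_of_nonneg_left hc (by positivity)
  have k2 : (m : ℤ) * (2 * 2 ^ (m - 1)) ≤ a ^ 2 * (2 * 2 ^ (m - 1)) :=
    mul_le_mul_of_nonneg_right hma (by positivity)
  nlinarith

end Pool.Agent.Lib.MP_4ac633_lc
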