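import Mathlib

/-!
# Binary digit sums

The binary digit sum `ds n`, its subadditivity, its behaviour under reduction of exponents modulo
`2 ^ m - 1`, and its first two moments over `[0, 2 ^ m)`.
-/

set_option autoImplicit false

namespace Pool.Agent.Lib.MP_4ac633_lc

/-- The binary digit sum. -/
def ds (n : ℕ) : ℕ := (Nat.digits 2 n).sum

theorem ds_zero : ds 0 = 0 := by simp [ds]

theorem ds_two_mul (n : ℕ) : ds (2 * n) = ds n := by
  rcases Nat.eq_zero_or_pos n with rfl | hn
  · simp
  · unfold ds
    rw [Nat.digits_def' (by norm_num) (by omega)]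
    simp

theorem ds_two_mul_add_one (n : ℕ) : ds (2 * n + 1) = ds n + 1 := by
  unfold ds
  rw [Nat.digits_def' (by norm_num) (by omega)]
  have h1 : (2 * n + 1) % 2 = 1 := by omega
  have h2 : (2 * n + 1) / 2 = n := by omega
  rw [h1, h2, List.sum_cons, Nat.add_comm]

theorem ds_one : ds 1 = 1 := by
  have := ds_two_mul_add_one 0
  simpa [ds_zero] using this

theorem ds_add_le (a b : ℕ) : ds (a + b) ≤ ds a + ds b := by
  induction a using Nat.strong_induction_on generalizing b with
  | _ a ih =>
    rcases Nat.eq_zero_or_pos a with rfl | ha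
    · simp [ds_zero]
    rcases Nat.even_or_odd' a with ⟨a', rfl | rfl⟩ <;>
      rcases Nat.even_or_odd' b with ⟨b', rfl | rfl⟩
    · have := ih a' (by omega) b'
      rw [← Nat.mul_add, ds_two_mul, ds_two_mul, ds_two_mul]
      exact this
    · have := ih a' (by omega) b'
      rw [← Nat.add_assoc, ← Nat.mul_add, ds_two_mul_add_one, ds_two_mul, ds_two_mul_add_one]
      omega
    · have := ih a' (by omega) b'
      have e : 2 * a' + 1 + 2 * b' = 2 * (a' + b') + 1 := by ring
      rw [e, ds_two_mul_add_one, ds_two_mul, ds_two_mul_add_one]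
      omega
    · have e : 2 * a' + 1 + (2 * b' + 1) = 2 * (a' + b' + 1) := by ring
      rw [e, ds_two_mul, ds_two_mul_add_one, ds_two_mul_add_one]
      rcases Nat.eq_zero_or_pos a' with rfl | ha'
      · rw [Nat.zero_add, ds_zero]
        have h1 : ds (b' + 1) ≤ ds b' + 1 := by
          -- adding one
          clear ih e ha
          induction b' using Nat.strong_induction_on with
          | _ b ihb =>
            rcases Nat.even_or_odd' b with ⟨c, rfl | rfl⟩
            · rw [ds_two_mul_add_one, ds_two_mul]
            · have e : 2 * c + 1 + 1 = 2 * (c + 1) := by ring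
              rw [e, ds_two_mul, ds_two_mul_add_one]
              have := ihb c (by omega)
              omega
        omega
      · have h1 := ih a' (by omega) (b' + 1)
        have h2 : ds (b' + 1) ≤ ds b' + 1 := by
          clear ih e ha h1
          induction b' using Nat.strong_induction_on with
          | _ b ihb =>
            rcases Nat.even_or_odd' b with ⟨c, rfl | rfl⟩
            · rw [ds_two_mul_add_one, ds_two_mul]
            · have e : 2 * c + 1 + 1 = 2 * (c + 1) := by ring
              rw [e, ds_two_mul, ds_two_mul_add_one]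
              have := ihb c (by omega)
              omega
        have e2 : a' + b' + 1 = a' + (b' + 1) := by ring
        rw [e2]
        omega

theorem ds_pow_mul_add (m q r : ℕ) (hr : r < 2 ^ m) : ds (2 ^ m * q + r) = ds q + ds r := by
  induction m generalizing r with
  | zero =>
    have : r = 0 := by simpa using hr
    subst this
    simp [ds_zero]
  | succ m ih =>
    rcases Nat.even_or_odd' r with ⟨c, rfl | rfl⟩
    · have hc : c < 2 ^ m := by rw [pow_succ] at hr; omega
      have e : 2 ^ (m + 1) * q + 2 * c = 2 * (2 ^ m * q + c) := by ring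
      rw [e, ds_two_mul, ds_two_mul, ih c hc]
    · have hc : c < 2 ^ m := by rw [pow_succ] at hr; omega
      have e : 2 ^ (m + 1) * q + (2 * c + 1) = 2 * (2 ^ m * q + c) + 1 := by ring
      rw [e, ds_two_mul_add_one, ds_two_mul_add_one, ih c hc]
      omega

theorem ds_two_pow (k : ℕ) : ds (2 ^ k) = 1 := by
  have := ds_pow_mul_add k 1 0 (by positivity)
  simpa [ds_zero, ds_one] using this

theorem ds_two_pow_sub_one (m : ℕ) : ds (2 ^ m - 1) = m := by
  induction m with
  | zero => simp [ds_zero]
  | succ m ih =>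
    have h : 1 ≤ 2 ^ m := Nat.one_le_two_pow
    have e : 2 ^ (m + 1) - 1 = 2 * (2 ^ m - 1) + 1 := by rw [pow_succ]; omega
    rw [e, ds_two_mul_add_one, ih]

/-- Reduction of a positive exponent to `[1, 2 ^ m - 1]` does not increase the digit sum, and
does not change powers in a monoid where `x ^ (2 ^ m) = x`. -/
theorem exists_reduced (m : ℕ) (hm : 1 ≤ m) (a : ℕ) (ha : 1 ≤ a) :
    ∃ b, 1 ≤ b ∧ b ≤ 2 ^ m - 1 ∧ ds b ≤ ds a ∧
      ∀ {M : Type} [Monoid M] (x : M), x ^ (2 ^ m) = x → x ^ a = x ^ b := by
  induction a using Nat.strong_induction_on with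
  | _ a ih =>
    have h2 : 2 ≤ 2 ^ m := by
      calc 2 = 2 ^ 1 := by norm_num
        _ ≤ 2 ^ m := Nat.pow_le_pow_right (by norm_num) hm
    by_cases h : a < 2 ^ m
    · exact ⟨a, ha, by omega, le_rfl, fun x _ => rfl⟩
    · push Not at h
      have hdm := Nat.div_add_mod a (2 ^ m)
      set q := a / 2 ^ m with hq
      set r := a % 2 ^ m with hr
      have hrlt : r < 2 ^ m := Nat.mod_lt _ (by positivity)
      have hq1 : 1 ≤ q := by
        rw [hq]; exact (Nat.one_le_div_iff (by positivity)).mpr h
      have hlt : q + r < a := by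
        have : 2 * q ≤ 2 ^ m * q := Nat.mul_le_mul_right q h2
        omega
      obtain ⟨b, hb1, hb2, hb3, hb4⟩ := ih (q + r) hlt (by omega)
      refine ⟨b, hb1, hb2, ?_, ?_⟩
      · have e1 : ds a = ds q + ds r := by
          rw [← hdm]; exact ds_pow_mul_add m q r hrlt
        have e2 := ds_add_le q r
        omega
      · intro M _ x hx
        rw [← hb4 x hx, ← hdm, pow_add, pow_mul, hx, pow_add]

/-- The first moment of the digit sum. -/
theorem sum_ds_one (m : ℕ) : ∑ i ∈ Finset.range (2 ^ m), (2 * (ds i : ℤ) - m) = 0 := by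
  induction m with
  | zero => simp [ds_zero]
  | succ m ih =>
    have e : ∀ f : ℕ → ℤ, ∑ i ∈ Finset.range (2 ^ (m + 1)), f i
        = ∑ j ∈ Finset.range (2 ^ m), (f (2 * j) + f (2 * j + 1)) := by
      intro f
      rw [pow_succ, Nat.mul_comm]
      generalize 2 ^ m = n
      induction n with
      | zero => simp
      | succ n ihn =>
        rw [Nat.mul_succ, Finset.sum_range_succ, Finset.sum_range_succ, ihn,
          Finset.sum_range_succ]
        ring
    rw [e]
    have : ∀ j ∈ Finset.range (2 ^ m), ((2 * (ds (2 * j) : ℤ) - ((m + 1 : ℕ) : ℤ))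
        + (2 * (ds (2 * j + 1) : ℤ) - ((m + 1 : ℕ) : ℤ))) = 2 * (2 * (ds j : ℤ) - m) := by
      intro j _
      rw [ds_two_mul, ds_two_mul_add_one]
      push_cast
      ring
    rw [Finset.sum_congr rfl this, ← Finset.mul_sum, ih, mul_zero]

/-- The second moment of the digit sum. -/
theorem sum_ds_sq (m : ℕ) :
    ∑ i ∈ Finset.range (2 ^ m), (2 * (ds i : ℤ) - m) ^ 2 = (m : ℤ) * 2 ^ m := by
  induction m with
  | zero => simp [ds_zero]
  | succ m ih =>
    have e : ∀ f : ℕ → ℤ, ∑ i ∈ Finset.range (2 ^ (m + 1)), f i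
        = ∑ j ∈ Finset.range (2 ^ m), (f (2 * j) + f (2 * j + 1)) := by
      intro f
      rw [pow_succ, Nat.mul_comm]
      generalize 2 ^ m = n
      induction n with
      | zero => simp
      | succ n ihn =>
        rw [Nat.mul_succ, Finset.sum_range_succ, Finset.sum_range_succ, ihn,
          Finset.sum_range_succ]
        ring
    rw [e]
    have : ∀ j ∈ Finset.range (2 ^ m), ((2 * (ds (2 * j) : ℤ) - ((m + 1 : ℕ) : ℤ)) ^ 2
        + (2 * (ds (2 * j + 1) : ℤ) - ((m + 1 : ℕ) : ℤ)) ^ 2)
          = 2 * (2 * (ds j : ℤ) - m) ^ 2 + 2 := by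
      intro j _
      rw [ds_two_mul, ds_two_mul_add_one]
      push_cast
      ring
    rw [Finset.sum_congr rfl this, Finset.sum_add_distrib, ← Finset.mul_sum, ih]
    simp only [Finset.sum_const, Finset.card_range, nsmul_eq_mul]
    push_cast
    ring

end Pool.Agent.Lib.MP_4ac633_lc
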