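import Pool.Agent.Lib.MP_4ac633_lc.Count

/-!
# Low degree functions on `K × K` as bivariate polynomials over `K = GF(2 ^ m)`
-/

set_option autoImplicit false

open Finset

namespace Pool.Agent.Lib.MP_4ac633_lc

set_option linter.unusedSectionVars false

variable {K : Type} [Field K] [Finite K] [Algebra (ZMod 2) K]

/-- The `K`-span of the monomials `x ^ i * y ^ j` with binary weight at most `d`. -/
def W (K : Type) [Field K] (d : ℕ) : Submodule K (K × K → K) :=
  Submodule.span K {h | ∃ i j : ℕ, ds i + ds j ≤ d ∧ h = fun p => p.1 ^ i * p.2 ^ j}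

theorem W_mono {d e : ℕ} (h : d ≤ e) : W K d ≤ W K e := by
  apply Submodule.span_mono
  rintro _ ⟨i, j, hij, rfl⟩
  exact ⟨i, j, hij.trans h, rfl⟩

theorem one_mem_W : (fun _ => 1 : K × K → K) ∈ W K 0 := by
  apply Submodule.subset_span
  refine ⟨0, 0, by simp [ds_zero], ?_⟩
  funext p
  simp

/-- Every linear functional on `K` is given by a linearized polynomial. -/
theorem exists_linearized (l : K →ₗ[ZMod 2] ZMod 2) :
    ∃ c : K, ∀ x : K, algebraMap (ZMod 2) K (l x)
      = ∑ i ∈ range (Module.finrank (ZMod 2) K), c ^ (2 ^ i) * x ^ (2 ^ i) := by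
  classical
  have hnd := traceForm_nondegenerate (ZMod 2) K
  have hfin : Module.Finite (ZMod 2) K := Module.Finite.of_finite
  obtain ⟨c, hc⟩ : ∃ c : K, ∀ x, l x = Algebra.trace (ZMod 2) K (c * x) := by
    have e := (Algebra.traceForm (ZMod 2) K).toDual hnd
    refine ⟨((Algebra.traceForm (ZMod 2) K).toDual hnd).symm l, fun x => ?_⟩
    have := LinearMap.BilinForm.apply_toDual_symm_apply (B := Algebra.traceForm (ZMod 2) K)
      (hB := hnd) l x
    rw [Algebra.traceForm_apply] at this
    exact this.symm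
  refine ⟨c, fun x => ?_⟩
  rw [hc x, FiniteField.algebraMap_trace_eq_sum_pow]
  apply sum_congr rfl
  intro i _
  simp [mul_pow]

theorem mul_x_mem {d : ℕ} {h : K × K → K} (hh : h ∈ W K d) (k : ℕ) :
    (fun p => p.1 ^ (2 ^ k) * h p) ∈ W K (d + 1) := by
  induction hh using Submodule.span_induction with
  | mem h hh =>
    obtain ⟨i, j, hij, rfl⟩ := hh
    apply Submodule.subset_span
    refine ⟨2 ^ k + i, j, ?_, ?_⟩
    · have := ds_add_le (2 ^ k) i
      rw [ds_two_pow] at this
      omega
    · funext p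
      rw [pow_add]; ring
  | zero =>
    have : (fun p : K × K => p.1 ^ (2 ^ k) * (0 : K × K → K) p) = 0 := by
      funext p; simp
    rw [this]; exact Submodule.zero_mem _
  | add x y _ _ hx hy =>
    have : (fun p : K × K => p.1 ^ (2 ^ k) * (x + y) p)
        = (fun p => p.1 ^ (2 ^ k) * x p) + (fun p => p.1 ^ (2 ^ k) * y p) := by
      funext p; simp [mul_add]
    rw [this]; exact Submodule.add_mem _ hx hy
  | smul a x _ hx =>
    have : (fun p : K × K => p.1 ^ (2 ^ k) * (a • x) p)
        = a • (fun p => p.1 ^ (2 ^ k) * x p) := by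
      funext p; simp; ring
    rw [this]; exact Submodule.smul_mem _ _ hx

theorem mul_y_mem {d : ℕ} {h : K × K → K} (hh : h ∈ W K d) (k : ℕ) :
    (fun p => p.2 ^ (2 ^ k) * h p) ∈ W K (d + 1) := by
  induction hh using Submodule.span_induction with
  | mem h hh =>
    obtain ⟨i, j, hij, rfl⟩ := hh
    apply Submodule.subset_span
    refine ⟨i, 2 ^ k + j, ?_, ?_⟩
    · have := ds_add_le (2 ^ k) j
      rw [ds_two_pow] at this
      omega
    · funext p
      rw [pow_add]; ring
  | zero =>
    have : (fun p : K × K => p.2 ^ (2 ^ k) * (0 : K × K → K) p) = 0 := by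
      funext p; simp
    rw [this]; exact Submodule.zero_mem _
  | add x y _ _ hx hy =>
    have : (fun p : K × K => p.2 ^ (2 ^ k) * (x + y) p)
        = (fun p => p.2 ^ (2 ^ k) * x p) + (fun p => p.2 ^ (2 ^ k) * y p) := by
      funext p; simp [mul_add]
    rw [this]; exact Submodule.add_mem _ hx hy
  | smul a x _ hx =>
    have : (fun p : K × K => p.2 ^ (2 ^ k) * (a • x) p)
        = a • (fun p => p.2 ^ (2 ^ k) * x p) := by
      funext p; simp; ring
    rw [this]; exact Submodule.smul_mem _ _ hx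

/-- Multiplying by an `F_2`-valued linear functional raises the degree by at most one. -/
theorem mul_functional_mem {d : ℕ} {h : K × K → K} (hh : h ∈ W K d)
    (l : K × K →ₗ[ZMod 2] ZMod 2) :
    (fun p => algebraMap (ZMod 2) K (l p) * h p) ∈ W K (d + 1) := by
  obtain ⟨c, hc⟩ := exists_linearized (l.comp (LinearMap.inl (ZMod 2) K K))
  obtain ⟨c', hc'⟩ := exists_linearized (l.comp (LinearMap.inr (ZMod 2) K K))
  have e : ∀ p : K × K, algebraMap (ZMod 2) K (l p) * h p
      = ∑ i ∈ range (Module.finrank (ZMod 2) K), c ^ (2 ^ i) * (p.1 ^ (2 ^ i) * h p)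
        + ∑ i ∈ range (Module.finrank (ZMod 2) K), c' ^ (2 ^ i) * (p.2 ^ (2 ^ i) * h p) := by
    intro p
    have h1 : l p = l (p.1, 0) + l (0, p.2) := by
      rw [← map_add]; simp
    have h2 := hc p.1
    have h3 := hc' p.2
    simp only [LinearMap.comp_apply, LinearMap.inl_apply, LinearMap.inr_apply] at h2 h3
    rw [h1, map_add, h2, h3, add_mul, sum_mul, sum_mul]
    congr 1 <;> exact sum_congr rfl fun i _ => by ring
  have e2 : (fun p => algebraMap (ZMod 2) K (l p) * h p)
      = ∑ i ∈ range (Module.finrank (ZMod 2) K),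
          (c ^ (2 ^ i)) • (fun p : K × K => p.1 ^ (2 ^ i) * h p)
        + ∑ i ∈ range (Module.finrank (ZMod 2) K),
          (c' ^ (2 ^ i)) • (fun p : K × K => p.2 ^ (2 ^ i) * h p) := by
    funext p
    rw [e p]
    simp [Finset.sum_apply]
  rw [e2]
  apply Submodule.add_mem
  · exact Submodule.sum_mem _ fun i _ => Submodule.smul_mem _ _ (mul_x_mem hh i)
  · exact Submodule.sum_mem _ fun i _ => Submodule.smul_mem _ _ (mul_y_mem hh i)

theorem prod_functional_mem {ι : Type} (l : ι → (K × K →ₗ[ZMod 2] ZMod 2)) (S : Finset ι) :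
    (fun p => ∏ i ∈ S, algebraMap (ZMod 2) K (l i p)) ∈ W K S.card := by
  classical
  induction S using Finset.induction_on with
  | empty =>
    simpa using one_mem_W (K := K)
  | insert a S ha ih =>
    rw [card_insert_of_notMem ha]
    have := mul_functional_mem ih (l a)
    simpa [prod_insert ha] using this

/-- The set of exponents of reduced monomials of weight at most `d`. -/
def I (N d : ℕ) : Finset (ℕ × ℕ) :=
  ((range N) ×ˢ (range N)).filter (fun q => ds q.1 + ds q.2 ≤ d)

/-- Every function in `W d`, `d < m`, is given by a reduced polynomial. -/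
theorem exists_coeffs (m d : ℕ) (hm : 1 ≤ m) (hd : d < m) (hK : ∀ x : K, x ^ (2 ^ m) = x)
    {h : K × K → K} (hh : h ∈ W K d) :
    ∃ c : ℕ × ℕ → K, ∀ p, h p = ∑ q ∈ I (2 ^ m - 1) d, c q * (p.1 ^ q.1 * p.2 ^ q.2) := by
  classical
  have red : ∀ a : ℕ, ds a ≤ d → ∃ b, b < 2 ^ m - 1 ∧ ds b ≤ ds a ∧ ∀ x : K, x ^ a = x ^ b := by
    intro a ha
    have h2 : 2 ≤ 2 ^ m := by
      calc 2 = 2 ^ 1 := by norm_num
        _ ≤ 2 ^ m := Nat.pow_le_pow_right (by norm_num) hm
    rcases Nat.eq_zero_or_pos a with rfl | ha1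
    · exact ⟨0, by omega, le_rfl, fun x => rfl⟩
    · obtain ⟨b, _, hb2, hb3, hb4⟩ := exists_reduced m hm a ha1
      refine ⟨b, ?_, hb3, fun x => hb4 x (hK x)⟩
      rcases Nat.lt_or_eq_of_le hb2 with h | h
      · exact h
      · exfalso
        rw [h, ds_two_pow_sub_one] at hb3
        omega
  induction hh using Submodule.span_induction with
  | mem h hh =>
    obtain ⟨i, j, hij, rfl⟩ := hh
    obtain ⟨i', hi1, hi2, hi3⟩ := red i (by omega)
    obtain ⟨j', hj1, hj2, hj3⟩ := red j (by omega)
    refine ⟨fun q => if q = (i', j') then 1 else 0, fun p => ?_⟩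
    have hmem : (i', j') ∈ I (2 ^ m - 1) d := by
      unfold I
      rw [mem_filter, mem_product, mem_range, mem_range]
      exact ⟨⟨hi1, hj1⟩, by simp only; omega⟩
    rw [sum_eq_single_of_mem (i', j') hmem]
    · simp [hi3, hj3]
    · intro q _ hq
      simp [hq]
  | zero => exact ⟨fun _ => 0, fun p => by simp⟩
  | add x y _ _ hx hy =>
    obtain ⟨c, hc⟩ := hx
    obtain ⟨c', hc'⟩ := hy
    refine ⟨fun q => c q + c' q, fun p => ?_⟩
    simp only [Pi.add_apply, hc p, hc' p, add_mul, sum_add_distrib]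
  | smul a x _ hx =>
    obtain ⟨c, hc⟩ := hx
    refine ⟨fun q => a * c q, fun p => ?_⟩
    simp only [Pi.smul_apply, hc p, smul_eq_mul, mul_sum, mul_assoc]

end Pool.Agent.Lib.MP_4ac633_lc
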