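import Pool.Agent.Lib.MP_4ac633_lc.Anf

/-!
# The upper bound `AI ≤ m` on `2 * m` bits
-/

set_option autoImplicit false

open Finset

namespace Pool.Agent.Lib.MP_4ac633_lc

/-- The dimension count: a set with fewer points than there are monomials of degree at most `d`
carries a nonzero function of degree at most `d` vanishing on it. -/
theorem exists_vanishing (n d : ℕ) (S : Finset (Fin n → ZMod 2))
    (hS : S.card < (univ.filter (fun T : Finset (Fin n) => T.card ≤ d)).card) :
    ∃ g : (Fin n → ZMod 2) → ZMod 2, g ≠ 0 ∧ (∀ x ∈ S, g x = 0) ∧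
      ∃ c : Finset (Fin n) → ZMod 2, (∀ T, c T ≠ 0 → T.card ≤ d) ∧
        ∀ x, g x = ∑ T : Finset (Fin n), c T * ∏ i ∈ T, x i := by
  classical
  let E : ({T : Finset (Fin n) // T.card ≤ d} → ZMod 2) →ₗ[ZMod 2] (Finset (Fin n) → ZMod 2) :=
    { toFun := fun c T => if h : T.card ≤ d then c ⟨T, h⟩ else 0
      map_add' := by
        intro c c'
        funext T
        by_cases h : T.card ≤ d <;> simp [h]
      map_smul' := by
        intro a c
        funext T
        by_cases h : T.card ≤ d <;> simp [h] }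
  let V : ((Fin n → ZMod 2) → ZMod 2) →ₗ[ZMod 2] ({x // x ∈ S} → ZMod 2) :=
    LinearMap.pi fun q => LinearMap.proj q.1
  let T := V.comp ((anf n).comp E)
  have hker : LinearMap.ker T ≠ ⊥ := by
    apply LinearMap.ker_ne_bot_of_finrank_lt
    rw [Module.finrank_fintype_fun_eq_card, Module.finrank_fintype_fun_eq_card, Fintype.card_coe,
      Fintype.card_subtype]
    exact hS
  obtain ⟨c, hc, hc0⟩ := (Submodule.ne_bot_iff _).mp hker
  have hT : T c = 0 := hc
  refine ⟨anf n (E c), ?_, ?_, E c, ?_, fun x => rfl⟩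
  · intro hzero
    apply hc0
    have hinj : E c = 0 := (anf_bijective n).1 (by rw [hzero, map_zero])
    funext q
    have := congrFun hinj q.1
    have h2 : E c q.1 = c q := by
      change (if h : q.1.card ≤ d then c ⟨q.1, h⟩ else 0) = c q
      rw [dif_pos q.2]
    rw [h2] at this
    exact this
  · intro x hx
    exact congrFun hT ⟨x, hx⟩
  · intro U hU
    by_contra h
    apply hU
    change (if h : U.card ≤ d then c ⟨U, h⟩ else 0) = 0
    rw [dif_neg h]

/-- More than half of the subsets of a `2 * m`-set have at most `m` elements. -/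
theorem half_lt_card (m : ℕ) :
    2 ^ (2 * m) < 2 * (univ.filter (fun T : Finset (Fin (2 * m)) => T.card ≤ m)).card := by
  classical
  set A := univ.filter (fun T : Finset (Fin (2 * m)) => T.card ≤ m) with hA
  set B := univ.filter (fun T : Finset (Fin (2 * m)) => m ≤ T.card) with hB
  have hAB : A.card = B.card := by
    apply card_bij (fun T _ => Tᶜ)
    · intro T hT
      rw [hA, mem_filter] at hT
      rw [hB, mem_filter]
      refine ⟨mem_univ _, ?_⟩
      rw [card_compl, Fintype.card_fin]
      omega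
    · intro T _ T' _ h
      exact compl_injective h
    · intro T hT
      rw [hB, mem_filter] at hT
      refine ⟨Tᶜ, ?_, compl_compl T⟩
      rw [hA, mem_filter]
      refine ⟨mem_univ _, ?_⟩
      rw [card_compl, Fintype.card_fin]
      omega
  have hun : A ∪ B = univ := by
    ext T
    rw [mem_union, hA, hB, mem_filter, mem_filter]
    simp only [mem_univ, true_and, iff_true]
    omega
  have hint : (A ∩ B).Nonempty := by
    obtain ⟨T, hT⟩ := exists_subset_card_eq (s := (univ : Finset (Fin (2 * m)))) (n := m)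
      (by rw [card_univ, Fintype.card_fin]; omega)
    refine ⟨T, ?_⟩
    rw [mem_inter, hA, hB, mem_filter, mem_filter]
    exact ⟨⟨mem_univ _, hT.2.le⟩, mem_univ _, hT.2.ge⟩
  have h1 := card_union_add_card_inter A B
  rw [hun, card_univ, Fintype.card_finset, Fintype.card_fin] at h1
  have h2 := card_pos.mpr hint
  omega

/-- Every Boolean function on `2 * m` bits has a nonzero annihilator, of it or of its complement,
of degree at most `m`. -/
theorem exists_annihilator_half (m d : ℕ) (hd : m ≤ d) (f : (Fin (2 * m) → ZMod 2) → ZMod 2) :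
    ∃ g : (Fin (2*m) → ZMod 2) → ZMod 2, g ≠ 0 ∧
        ((∀ x, f x * g x = 0) ∨ (∀ x, (f x + 1) * g x = 0)) ∧
        ∃ c : Finset (Fin (2*m)) → ZMod 2, (∀ S, c S ≠ 0 → S.card ≤ d) ∧
          ∀ x, g x = ∑ S : Finset (Fin (2*m)), c S * ∏ i ∈ S, x i := by
  classical
  have hhalf := half_lt_card m
  set S1 := univ.filter (fun x => f x = 1) with hS1
  set S0 := univ.filter (fun x => ¬ f x = 1) with hS0
  have hsum : S1.card + S0.card = 2 ^ (2 * m) := by
    rw [hS1, hS0, card_filter_add_card_filter_not, card_univ, Fintype.card_fun, ZMod.card,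
      Fintype.card_fin]
  have h01 : ∀ u : ZMod 2, ¬ u = 1 → u = 0 := by decide
  rcases Nat.lt_or_ge S1.card (univ.filter (fun T : Finset (Fin (2 * m)) => T.card ≤ m)).card
    with h | h
  · obtain ⟨g, hg0, hg1, c, hc1, hc2⟩ := exists_vanishing (2 * m) m S1 h
    refine ⟨g, hg0, Or.inl fun x => ?_, c, fun S hS => (hc1 S hS).trans hd, hc2⟩
    by_cases hx : f x = 1
    · rw [hg1 x (mem_filter.mpr ⟨mem_univ _, hx⟩), mul_zero]
    · rw [h01 _ hx, zero_mul]
  · have h' : S0.card < (univ.filter (fun T : Finset (Fin (2 * m)) => T.card ≤ m)).card := by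
      omega
    obtain ⟨g, hg0, hg1, c, hc1, hc2⟩ := exists_vanishing (2 * m) m S0 h'
    refine ⟨g, hg0, Or.inr fun x => ?_, c, fun S hS => (hc1 S hS).trans hd, hc2⟩
    by_cases hx : f x = 1
    · rw [hx]
      have : (1 : ZMod 2) + 1 = 0 := by decide
      rw [this, zero_mul]
    · rw [hg1 x (mem_filter.mpr ⟨mem_univ _, hx⟩), mul_zero]

end Pool.Agent.Lib.MP_4ac633_lc
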