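import Pool.Agent.Lib.MP_4ac633_lc.VanishAxes
import Pool.Agent.Lib.MP_4ac633_lc.UpperAI

/-!
# Optimal algebraic immunity from the Tu-Deng counting bound
-/

set_option autoImplicit false

open Finset

namespace Pool.Agent.Lib.MP_4ac633_lc

theorem ds_le_of_lt (m t : ℕ) (ht : t < 2 ^ m) : ds t ≤ m := by
  induction m generalizing t with
  | zero =>
    have : t = 0 := by simpa using ht
    rw [this, ds_zero]
  | succ m ih =>
    rcases Nat.even_or_odd' t with ⟨c, rfl | rfl⟩
    · rw [ds_two_mul]
      have := ih c (by rw [pow_succ] at ht; omega)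
      omega
    · rw [ds_two_mul_add_one]
      have := ih c (by rw [pow_succ] at ht; omega)
      omega

theorem ds_lt_of_lt (m t : ℕ) (ht : t < 2 ^ m - 1) : ds t < m := by
  induction m generalizing t with
  | zero => simp at ht
  | succ m ih =>
    have h1 : 1 ≤ 2 ^ m := Nat.one_le_two_pow
    rcases Nat.even_or_odd' t with ⟨c, rfl | rfl⟩
    · rw [ds_two_mul]
      have := ds_le_of_lt m c (by rw [pow_succ] at ht; omega)
      omega
    · rw [ds_two_mul_add_one]
      have := ih c (by rw [pow_succ] at ht; omega)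
      omega

/-- For `t = 0` only the pair `(0, 0)` is counted. -/
theorem zero_of_count (m i : ℕ) (hm : 1 ≤ m) (hi : i < 2 ^ m - 1)
    (h : ds i + ds (refl (2 ^ m - 1) 0 i) ≤ m - 1) : i = 0 := by
  by_contra hi0
  have e : refl (2 ^ m - 1) 0 i = 2 ^ m - 1 - i := by
    unfold refl
    rw [Nat.zero_add]
    exact Nat.mod_eq_of_lt (by omega)
  rw [e] at h
  have h4 := ds_add_le i (2 ^ m - 1 - i)
  have h5 : i + (2 ^ m - 1 - i) = 2 ^ m - 1 := by omega
  rw [h5, ds_two_pow_sub_one] at h4
  omega

/-- The full count is at most `2 ^ (m - 1)` also for `t = 0`. -/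
theorem card_full_le (m t : ℕ) (hm : 1 ≤ m)
    (H : 0 < t → ((range (2 ^ m - 1)).filter
      (fun i => ds i + ds (refl (2 ^ m - 1) t i) ≤ m - 1)).card ≤ 2 ^ (m - 1)) :
    ((range (2 ^ m - 1)).filter
      (fun i => ds i + ds (refl (2 ^ m - 1) t i) ≤ m - 1)).card ≤ 2 ^ (m - 1) := by
  rcases Nat.eq_zero_or_pos t with ht0 | ht1
  · have hsub : ((range (2 ^ m - 1)).filter
        (fun i => ds i + ds (refl (2 ^ m - 1) t i) ≤ m - 1)) ⊆ {0} := by
      intro i hi
      rw [mem_filter, mem_range, ht0] at hi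
      rw [mem_singleton]
      exact zero_of_count m i hm hi.1 hi.2
    have h1 := card_le_card hsub
    rw [card_singleton] at h1
    exact h1.trans Nat.one_le_two_pow
  · exact H ht1

/-- The pairs on the axes are counted by the full count only. -/
theorem card_axes_le (m t : ℕ) (hm : 1 ≤ m) (ht : t < 2 ^ m - 1)
    (H : 0 < t → ((range (2 ^ m - 1)).filter
      (fun i => ds i + ds (refl (2 ^ m - 1) t i) ≤ m - 1)).card ≤ 2 ^ (m - 1)) :
    ((range (2 ^ m - 1)).filter (fun i => i ≠ 0 ∧ refl (2 ^ m - 1) t i ≠ 0 ∧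
      ds i + ds (refl (2 ^ m - 1) t i) ≤ m - 1)).card ≤ 2 ^ (m - 1) - 1 := by
  classical
  rcases Nat.eq_zero_or_pos t with ht0 | ht1
  · have hempty : ((range (2 ^ m - 1)).filter (fun i => i ≠ 0 ∧ refl (2 ^ m - 1) t i ≠ 0 ∧
        ds i + ds (refl (2 ^ m - 1) t i) ≤ m - 1)) = ∅ := by
      rw [filter_eq_empty_iff]
      rintro i hi ⟨h1, h2, h3⟩
      rw [mem_range] at hi
      rw [ht0] at h3
      exact h1 (zero_of_count m i hm hi h3)
    rw [hempty, card_empty]
    exact Nat.zero_le _
  · have h1 := H ht1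
    have hdst : ds t ≤ m - 1 := by
      have := ds_lt_of_lt m t ht
      omega
    have hlt : ((range (2 ^ m - 1)).filter (fun i => i ≠ 0 ∧ refl (2 ^ m - 1) t i ≠ 0 ∧
        ds i + ds (refl (2 ^ m - 1) t i) ≤ m - 1)).card
        < ((range (2 ^ m - 1)).filter
            (fun i => ds i + ds (refl (2 ^ m - 1) t i) ≤ m - 1)).card := by
      apply card_lt_card
      rw [ssubset_iff_subset_ne]
      constructor
      · intro i hi
        rw [mem_filter] at hi ⊢
        exact ⟨hi.1, hi.2.2.2⟩
      · intro heq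
        have h0 : (0 : ℕ) ∈ (range (2 ^ m - 1)).filter
            (fun i => ds i + ds (refl (2 ^ m - 1) t i) ≤ m - 1) := by
          rw [mem_filter, mem_range]
          refine ⟨by omega, ?_⟩
          have e : refl (2 ^ m - 1) t 0 = t := by
            unfold refl
            rw [Nat.sub_zero, Nat.add_mod_right]
            exact Nat.mod_eq_of_lt ht
          rw [e, ds_zero]
          omega
        rw [← heq, mem_filter] at h0
        exact h0.2.1 rfl
    omega

/-- **The Tu-Deng function has optimal algebraic immunity**, given the Tu-Deng counting bound. -/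
theorem frozen_of_count
    (H : ∀ m t : ℕ, 1 ≤ m → 0 < t → t < 2 ^ m - 1 → ((range (2 ^ m - 1)).filter
      (fun i => ds i + ds (refl (2 ^ m - 1) t i) ≤ m - 1)).card ≤ 2 ^ (m - 1)) :
    ∀ m : ℕ, ∃ f : (Fin (2*m) → ZMod 2) → ZMod 2,
    (∀ a : Fin (2*m) → ZMod 2,
      (∑ x : Fin (2*m) → ZMod 2, (-1 : ℤ) ^ (f x + ∑ i, a i * x i).val) ^ 2 = 2 ^ (2*m)) ∧
    ∀ d : ℕ, ((∃ g : (Fin (2*m) → ZMod 2) → ZMod 2, g ≠ 0 ∧
        ((∀ x, f x * g x = 0) ∨ (∀ x, (f x + 1) * g x = 0)) ∧
        ∃ c : Finset (Fin (2*m)) → ZMod 2, (∀ S, c S ≠ 0 → S.card ≤ d) ∧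
          ∀ x, g x = ∑ S : Finset (Fin (2*m)), c S * ∏ i ∈ S, x i) ↔ m ≤ d) := by
  classical
  intro m
  rcases Nat.eq_zero_or_pos m with hm0 | hm
  · subst hm0
    refine ⟨fun _ => 0, ?_, ?_⟩
    · intro a
      simp
    · intro d
      refine ⟨fun _ => Nat.zero_le _, fun hd => exists_annihilator_half 0 d hd _⟩
  have hm0 : m ≠ 0 := by omega
  have : Fact (Nat.Prime 2) := ⟨Nat.prime_two⟩
  let K := GaloisField 2 m
  let instK : Fintype K := Fintype.ofFinite K
  have hcardN : Nat.card K = 2 ^ m := GaloisField.card 2 m hm0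
  have hcard : Fintype.card K = 2 ^ m := by rw [← Nat.card_eq_fintype_card]; exact hcardN
  have hK : ∀ x : K, x ^ (2 ^ m) = x := by
    intro x
    rw [← hcard]
    exact FiniteField.pow_card x
  have hpow : 2 ^ m = 2 * 2 ^ (m - 1) := by
    have : m = (m - 1) + 1 := by omega
    conv_lhs => rw [this]
    rw [pow_succ]; ring
  have hYpos : 1 ≤ 2 ^ (m - 1) := Nat.one_le_two_pow
  -- a generator
  obtain ⟨γ, hγ⟩ := IsCyclic.exists_generator (α := Kˣ)
  have hord : orderOf γ = 2 ^ m - 1 := by
    rw [orderOf_eq_card_of_forall_mem_zpowers hγ, Nat.card_units, hcardN]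
  set α : K := (γ : K) with hαdef
  have hα0 : α ≠ 0 := γ.ne_zero
  have hα : ∀ i < 2 ^ m - 1, ∀ j < 2 ^ m - 1, α ^ i = α ^ j → i = j := by
    intro i hi j hj hij
    have h1 : γ ^ i = γ ^ j := by
      apply Units.ext
      rw [Units.val_pow_eq_pow_val, Units.val_pow_eq_pow_val]
      exact hij
    exact pow_injOn_Iio_orderOf (by rw [Set.mem_Iio, hord]; exact hi)
      (by rw [Set.mem_Iio, hord]; exact hj) h1
  -- the coordinates
  have hfr : Module.finrank (ZMod 2) (Fin (2*m) → ZMod 2)
      = Module.finrank (ZMod 2) (K × K) := by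
    rw [Module.finrank_prod, GaloisField.finrank 2 hm0, Module.finrank_fin_fun]
    ring
  let φ : (Fin (2*m) → ZMod 2) ≃ₗ[ZMod 2] K × K := LinearEquiv.ofFinrankEq _ _ hfr
  refine ⟨fun v => if D m α (φ v) then 1 else 0, ?_, ?_⟩
  · intro a
    let A : (Fin (2*m) → ZMod 2) →ₗ[ZMod 2] ZMod 2 := ∑ i, a i • LinearMap.proj i
    have hA : ∀ x, A x = ∑ i, a i * x i := by
      intro x
      simp [A, LinearMap.sum_apply]
    have := bent_aux m hm hcard α hα (A.comp φ.symm.toLinearMap)
    rw [← this]
    congr 1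
    rw [← Equiv.sum_comp φ.toEquiv]
    apply sum_congr rfl
    intro x _
    have e : (A.comp φ.symm.toLinearMap) (φ.toEquiv x) = ∑ i, a i * x i := by
      rw [← hA]
      simp
    rw [e]
    rfl
  · intro d
    refine ⟨?_, fun hd => exists_annihilator_half m d hd _⟩
    rintro ⟨g, hg0, hann, c, hc, hgc⟩
    by_contra hcon
    push Not at hcon
    -- the transferred function has low degree
    set G : K × K → K := fun p => algebraMap (ZMod 2) K (g (φ.symm p)) with hG
    have hGW : G ∈ W K (m - 1) := by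
      have e : G = ∑ S : Finset (Fin (2*m)), (algebraMap (ZMod 2) K (c S)) •
          (fun p : K × K => ∏ i ∈ S, algebraMap (ZMod 2) K
            (((LinearMap.proj i : (Fin (2*m) → ZMod 2) →ₗ[ZMod 2] ZMod 2).comp
              φ.symm.toLinearMap) p)) := by
        funext p
        rw [hG]
        simp only [hgc, map_sum, map_mul, map_prod, Finset.sum_apply, Pi.smul_apply, smul_eq_mul]
        rfl
      rw [e]
      apply Submodule.sum_mem
      intro S _
      by_cases hS : c S = 0
      · rw [hS, map_zero, zero_smul]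
        exact Submodule.zero_mem _
      · apply Submodule.smul_mem
        refine W_mono ?_ (prod_functional_mem
          (fun i => (LinearMap.proj i : (Fin (2*m) → ZMod 2) →ₗ[ZMod 2] ZMod 2).comp
              φ.symm.toLinearMap) S)
        have := hc S hS
        omega
    have hGzero : (∀ p, G p = 0) → False := by
      intro h
      apply hg0
      funext v
      have := h (φ v)
      simp only [hG, LinearEquiv.symm_apply_apply] at this
      exact (algebraMap (ZMod 2) K).injective (by rw [this]; exact (map_zero _).symm)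
    have hd' : m - 1 < m := by omega
    rcases hann with h | h
    · -- annihilators of `f`
      apply hGzero
      apply eq_zero_of_vanish m (m - 1) (2 ^ (m - 1)) 0 hm hd' hK α hα0 hα
        (fun t ht => card_full_le m t hm (fun h0 => H m t hm h0 ht)) hGW
      intro l hl r _
      have hD : D m α (φ (φ.symm (α ^ (0 + l + r), α ^ r))) := by
        rw [LinearEquiv.apply_symm_apply]
        exact ⟨pow_ne_zero _ hα0, l, hl, by rw [Nat.zero_add, pow_add]⟩
      have h1 := h (φ.symm (α ^ (0 + l + r), α ^ r))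
      simp only [if_pos hD, one_mul] at h1
      simp only [hG, h1, map_zero]
    · -- annihilators of `f + 1`
      have hval : ∀ p : K × K, ¬ D m α p → G p = 0 := by
        intro p hp
        have h1 := h (φ.symm p)
        have hD : ¬ D m α (φ (φ.symm p)) := by
          rw [LinearEquiv.apply_symm_apply]; exact hp
        simp only [if_neg hD, zero_add, one_mul] at h1
        simp only [hG, h1, map_zero]
      apply hGzero
      apply eq_zero_of_vanish_axes m (m - 1) (2 ^ (m - 1) - 1) (2 ^ (m - 1)) hm hd' hK α hα0 hα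
        (fun t ht => card_axes_le m t hm ht (fun h0 => H m t hm h0 ht)) hGW
      · intro x
        apply hval
        rintro ⟨h2, _⟩
        exact h2 rfl
      · intro y
        apply hval
        rintro ⟨h2, l, _, hl⟩
        rcases mul_eq_zero.mp hl.symm with h3 | h3
        · exact pow_ne_zero _ hα0 h3
        · exact h2 h3
      · intro l hl r _
        apply hval
        rintro ⟨_, l', hl', hll⟩
        have h3 : α ^ (2 ^ (m - 1) + l) = α ^ l' := by
          have h4 : α ^ (2 ^ (m - 1) + l) * α ^ r = α ^ l' * α ^ r := by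
            rw [← pow_add]; exact hll
          exact mul_right_cancel₀ (pow_ne_zero _ hα0) h4
        have := hα _ (by omega) _ (by omega) h3
        omega

end Pool.Agent.Lib.MP_4ac633_lc
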