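import Pool.Agent.Lib.MP_4ac633_lc.Pigeon
import Pool.Agent.Lib.MP_4ac633_lc.Bent

/-!
# The number of cosets on which a bent function is constant
-/

set_option autoImplicit false

open Finset

namespace Pool.Agent.Lib.MP_4ac633_lc

theorem functional_eq_dot {n : ℕ} (l : (Fin n → ZMod 2) →ₗ[ZMod 2] ZMod 2) :
    ∃ a : Fin n → ZMod 2, ∀ x, l x = ∑ i, a i * x i := by
  classical
  refine ⟨fun j => l (Pi.single j 1), fun x => ?_⟩
  conv_lhs => rw [LinearMap.pi_apply_eq_sum_univ l x]
  apply sum_congr rfl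
  intro j _
  rw [smul_eq_mul, mul_comm]
  congr 2
  funext i
  simp [Pi.single_apply, eq_comm]

/-- The functional `α ↦ α · z`. -/
def dotL {M : ℕ} (z : Fin M → ZMod 2) : (Fin M → ZMod 2) →ₗ[ZMod 2] ZMod 2 where
  toFun a := ∑ i, a i * z i
  map_add' a b := by simp only [Pi.add_apply, add_mul, sum_add_distrib]
  map_smul' c a := by simp only [Pi.smul_apply, smul_eq_mul, mul_assoc, mul_sum, RingHom.id_apply]

theorem dotL_eq_zero {M : ℕ} {z : Fin M → ZMod 2} (h : dotL z = 0) : z = 0 := by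
  classical
  funext i
  have := LinearMap.congr_fun h (Pi.single i 1)
  have e : dotL z (Pi.single i 1) = z i := by
    change ∑ j, (Pi.single i (1 : ZMod 2) : Fin M → ZMod 2) j * z j = z i
    rw [sum_eq_single_of_mem i (mem_univ _)]
    · simp
    · intro j _ hj
      simp [hj]
  rw [e] at this
  simpa using this

theorem sum_sg_dot {M : ℕ} (z : Fin M → ZMod 2) :
    ∑ a : Fin M → ZMod 2, sg (∑ i, a i * z i) = if z = 0 then 2 ^ M else 0 := by
  classical
  by_cases h : z = 0
  · rw [if_pos h]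
    subst h
    simp [sg_zero]
  · rw [if_neg h]
    exact sum_sg (dotL z) (fun hh => h (dotL_eq_zero hh))

theorem sg_mul_self (u : ZMod 2) : sg u * sg u = 1 := by revert u; decide

theorem flat_card (m M r : ℕ) (hr : r ≤ m)
    (θ : ((Fin M → ZMod 2) × (Fin r → ZMod 2)) ≃ₗ[ZMod 2] (Fin (2 * m) → ZMod 2))
    (f : (Fin (2 * m) → ZMod 2) → ZMod 2) (Φ : Fin r → (Fin M → ZMod 2) → ZMod 2)
    (h : (Fin M → ZMod 2) → ZMod 2)
    (hf : ∀ x y, f (θ (x, y)) = h x + ∑ i, Φ i x * y i)
    (hbent : ∀ a : Fin (2*m) → ZMod 2,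
      (∑ x : Fin (2*m) → ZMod 2, (-1 : ℤ) ^ (f x + ∑ i, a i * x i).val) ^ 2 = 2 ^ (2*m)) :
    (univ.filter (fun x : Fin M → ZMod 2 => ∀ i, Φ i x = 0)).card = 4 ^ (m - r) := by
  classical
  set Z := univ.filter (fun x : Fin M → ZMod 2 => ∀ i, Φ i x = 0) with hZ
  -- the Walsh coefficients along the annihilator of the subspace
  have hW : ∀ b : Fin M → ZMod 2, (∑ x ∈ Z, sg (h x + ∑ i, b i * x i)) ^ 2 = 4 ^ (m - r) := by
    intro b
    let π : (Fin (2 * m) → ZMod 2) →ₗ[ZMod 2] (Fin M → ZMod 2) :=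
      (LinearMap.fst (ZMod 2) _ _).comp θ.symm.toLinearMap
    have hπ : ∀ x y, π (θ (x, y)) = x := by
      intro x y
      change (θ.symm (θ (x, y))).1 = x
      rw [LinearEquiv.symm_apply_apply]
    obtain ⟨a, ha⟩ := functional_eq_dot ((dotL b).comp π)
    have ha' : ∀ x y, ∑ i, a i * (θ (x, y)) i = ∑ i, b i * x i := by
      intro x y
      rw [← ha, LinearMap.comp_apply, hπ]
      change ∑ i, x i * b i = _
      exact sum_congr rfl fun i _ => mul_comm _ _
    have h1 := hbent a
    have h2 : ∑ x : Fin (2*m) → ZMod 2, (-1 : ℤ) ^ (f x + ∑ i, a i * x i).val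
        = 2 ^ r * ∑ x ∈ Z, sg (h x + ∑ i, b i * x i) := by
      rw [← Equiv.sum_comp θ.toEquiv, Fintype.sum_prod_type]
      have h3 : ∀ x : Fin M → ZMod 2, ∑ y : Fin r → ZMod 2,
          (-1 : ℤ) ^ (f (θ.toEquiv (x, y)) + ∑ i, a i * (θ.toEquiv (x, y)) i).val
          = if (∀ i, Φ i x = 0) then 2 ^ r * sg (h x + ∑ i, b i * x i) else 0 := by
        intro x
        have h4 : ∀ y : Fin r → ZMod 2,
            (-1 : ℤ) ^ (f (θ.toEquiv (x, y)) + ∑ i, a i * (θ.toEquiv (x, y)) i).val
            = sg (h x + ∑ i, b i * x i) * sg (∑ i, y i * Φ i x) := by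
          intro y
          have h5 : f (θ.toEquiv (x, y)) + ∑ i, a i * (θ.toEquiv (x, y)) i
              = (h x + ∑ i, b i * x i) + ∑ i, y i * Φ i x := by
            have e1 : f (θ.toEquiv (x, y)) = h x + ∑ i, Φ i x * y i := hf x y
            have e2 : ∑ i, a i * (θ.toEquiv (x, y)) i = ∑ i, b i * x i := ha' x y
            rw [e1, e2]
            have e3 : ∑ i, Φ i x * y i = ∑ i, y i * Φ i x :=
              sum_congr rfl fun i _ => mul_comm _ _
            rw [e3]
            ring
          rw [h5, ← sg_add]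
          rfl
        simp_rw [h4]
        rw [← mul_sum, sum_sg_dot (fun i => Φ i x)]
        by_cases hx : ∀ i, Φ i x = 0
        · have hz : (fun i => Φ i x) = 0 := funext hx
          rw [if_pos hx, hz, if_pos rfl]; ring
        · have hz : ¬ (fun i => Φ i x) = 0 := fun hh => hx (fun i => congrFun hh i)
          rw [if_neg hx, if_neg hz, mul_zero]
      simp_rw [h3]
      rw [← sum_filter, ← mul_sum]
    rw [h2, mul_pow] at h1
    have e4 : (2 : ℤ) ^ (2 * m) = (2 ^ r) ^ 2 * 4 ^ (m - r) := by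
      have : (4 : ℤ) = 2 ^ 2 := by norm_num
      rw [this, ← pow_mul, ← pow_mul, ← pow_add]
      congr 1
      omega
    rw [e4] at h1
    exact mul_left_cancel₀ (by positivity) h1
  -- Parseval
  have hP : ∑ b : Fin M → ZMod 2, (∑ x ∈ Z, sg (h x + ∑ i, b i * x i)) ^ 2
      = 2 ^ M * (Z.card : ℤ) := by
    have e1 : ∀ b : Fin M → ZMod 2, (∑ x ∈ Z, sg (h x + ∑ i, b i * x i)) ^ 2
        = ∑ x ∈ Z, ∑ x' ∈ Z, sg (h x) * sg (h x') * sg (∑ i, b i * (x + x') i) := by
      intro b
      rw [sq, sum_mul_sum]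
      apply sum_congr rfl
      intro x _
      apply sum_congr rfl
      intro x' _
      have : ∑ i, b i * (x + x') i = ∑ i, b i * x i + ∑ i, b i * x' i := by
        rw [← sum_add_distrib]
        exact sum_congr rfl fun i _ => by rw [Pi.add_apply]; ring
      rw [this, sg_add, sg_add, sg_add]
      ring
    simp_rw [e1]
    rw [sum_comm]
    have e2 : ∀ x ∈ Z, ∑ b : Fin M → ZMod 2, ∑ x' ∈ Z,
        sg (h x) * sg (h x') * sg (∑ i, b i * (x + x') i) = 2 ^ M := by
      intro x hx
      rw [sum_comm]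
      simp_rw [← mul_sum, sum_sg_dot]
      rw [sum_eq_single_of_mem x hx]
      · have : x + x = 0 := by
          funext i
          have : ∀ u : ZMod 2, u + u = 0 := by decide
          exact this _
        rw [if_pos this, sg_mul_self, one_mul]
      · intro x' _ hx'
        have : x + x' ≠ 0 := by
          intro hh
          apply hx'
          funext i
          have h6 : ∀ u v : ZMod 2, u + v = 0 → v = u := by decide
          exact h6 _ _ (congrFun hh i)
        rw [if_neg this, mul_zero]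
    rw [sum_congr rfl e2, sum_const, nsmul_eq_mul, mul_comm]
  simp_rw [hW] at hP
  rw [sum_const, card_univ, nsmul_eq_mul, Fintype.card_fun, ZMod.card, Fintype.card_fin] at hP
  push_cast at hP
  have h7 : (4 : ℤ) ^ (m - r) = Z.card := mul_left_cancel₀ (by positivity) hP
  exact_mod_cast h7.symm

end Pool.Agent.Lib.MP_4ac633_lc
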