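import Pool.Agent.Lib.MP_4ac633_lc.Anf

/-!
# Annihilators of functions that are affine on the cosets of a subspace
-/

set_option autoImplicit false

open Finset

namespace Pool.Agent.Lib.MP_4ac633_lc

theorem card_large_sets (M d : ℕ) :
    Fintype.card {S : Finset (Fin M) // d ≤ S.card} = ∑ i ∈ Icc d M, M.choose i := by
  classical
  rw [Fintype.card_subtype]
  have h1 : (univ.filter (fun S : Finset (Fin M) => d ≤ S.card)).card
      = ∑ i ∈ Icc d M, ((univ.filter (fun S : Finset (Fin M) => d ≤ S.card)).filter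
          (fun S => S.card = i)).card := by
    apply card_eq_sum_card_fiberwise
    intro S hS
    have hS' := (mem_filter.mp (mem_coe.mp hS)).2
    rw [mem_coe, mem_Icc]
    exact ⟨hS', by simpa using card_le_univ S⟩
  rw [h1]
  apply sum_congr rfl
  intro i hi
  have hi' := (mem_Icc.mp hi).1
  have e : (univ.filter (fun S : Finset (Fin M) => d ≤ S.card)).filter (fun S => S.card = i)
      = powersetCard i univ := by
    ext S
    rw [mem_filter, mem_filter, mem_powersetCard]
    constructor
    · rintro ⟨_, h⟩; exact ⟨subset_univ _, h⟩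
    · rintro ⟨_, h⟩; exact ⟨⟨mem_univ _, by omega⟩, h⟩
  rw [e, card_powersetCard, card_univ, Fintype.card_fin]

/-- Multiplication by a fixed function, as a linear map. -/
def mulBy {X : Type} (q : X → ZMod 2) : (X → ZMod 2) →ₗ[ZMod 2] (X → ZMod 2) where
  toFun s := fun x => s x * q x
  map_add' s s' := by funext x; simp [add_mul]
  map_smul' a s := by funext x; simp [mul_assoc]

theorem exists_annihilator (n M r d : ℕ)
    (θ : ((Fin M → ZMod 2) × (Fin r → ZMod 2)) ≃ₗ[ZMod 2] (Fin n → ZMod 2))
    (f : (Fin n → ZMod 2) → ZMod 2) (Φ : Fin r → (Fin M → ZMod 2) → ZMod 2)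
    (h : (Fin M → ZMod 2) → ZMod 2)
    (hf : ∀ x y, f (θ (x, y)) = h x + ∑ i, Φ i x * y i)
    (hcount : r * ∑ i ∈ Icc d M, M.choose i + ∑ i ∈ Icc (d + 1) M, M.choose i
      + (univ.filter (fun x => (∀ i, Φ i x = 0) ∧ h x = 1)).card < 2 ^ M) :
    ∃ g : (Fin n → ZMod 2) → ZMod 2, g ≠ 0 ∧ (∀ x, f x * g x = 0) ∧ g ∈ Dg n d := by
  classical
  set Z := univ.filter (fun x : Fin M → ZMod 2 => (∀ i, Φ i x = 0) ∧ h x = 1) with hZ
  let T1 : ((Fin M → ZMod 2) → ZMod 2) →ₗ[ZMod 2]
      (Fin r × {S : Finset (Fin M) // d ≤ S.card} → ZMod 2) :=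
    LinearMap.pi fun q => (LinearMap.proj q.2.1).comp
      ((coefEquiv M).toLinearMap.comp (mulBy (Φ q.1)))
  let T2 : ((Fin M → ZMod 2) → ZMod 2) →ₗ[ZMod 2]
      ({S : Finset (Fin M) // d + 1 ≤ S.card} → ZMod 2) :=
    LinearMap.pi fun q => (LinearMap.proj q.1).comp
      ((coefEquiv M).toLinearMap.comp (mulBy (fun x => h x + 1)))
  let T3 : ((Fin M → ZMod 2) → ZMod 2) →ₗ[ZMod 2] ({x : Fin M → ZMod 2 // x ∈ Z} → ZMod 2) :=
    LinearMap.pi fun q => LinearMap.proj q.1
  let T := T1.prod (T2.prod T3)
  have hker : LinearMap.ker T ≠ ⊥ := by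
    apply LinearMap.ker_ne_bot_of_finrank_lt
    rw [Module.finrank_prod, Module.finrank_prod, Module.finrank_fintype_fun_eq_card,
      Module.finrank_fintype_fun_eq_card, Module.finrank_fintype_fun_eq_card,
      Module.finrank_fintype_fun_eq_card, Fintype.card_prod, card_large_sets, card_large_sets,
      Fintype.card_fin, Fintype.card_coe]
    have : Fintype.card (Fin M → ZMod 2) = 2 ^ M := by
      rw [Fintype.card_fun, ZMod.card, Fintype.card_fin]
    rw [this]
    omega
  obtain ⟨s, hs, hs0⟩ := (Submodule.ne_bot_iff _).mp hker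
  have hT : T s = 0 := hs
  have h1 : ∀ i, ∀ S : Finset (Fin M), d ≤ S.card →
      coefEquiv M (fun x => s x * Φ i x) S = 0 := by
    intro i S hS
    have := congrFun (congrArg Prod.fst hT) (i, ⟨S, hS⟩)
    exact this
  have h2 : ∀ S : Finset (Fin M), d + 1 ≤ S.card →
      coefEquiv M (fun x => s x * (h x + 1)) S = 0 := by
    intro S hS
    have := congrFun (congrArg (fun q => q.2.1) hT) ⟨S, hS⟩
    exact this
  have h3 : ∀ x ∈ Z, s x = 0 := by
    intro x hx
    have := congrFun (congrArg (fun q => q.2.2) hT) ⟨x, hx⟩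
    exact this
  let π : (Fin n → ZMod 2) →ₗ[ZMod 2] (Fin M → ZMod 2) :=
    (LinearMap.fst (ZMod 2) _ _).comp θ.symm.toLinearMap
  let κ : (Fin n → ZMod 2) →ₗ[ZMod 2] (Fin r → ZMod 2) :=
    (LinearMap.snd (ZMod 2) _ _).comp θ.symm.toLinearMap
  have hfv : ∀ v, f v = h (π v) + ∑ i, Φ i (π v) * κ v i := by
    intro v
    have := hf (π v) (κ v)
    have e : θ (π v, κ v) = v := by
      change θ ((θ.symm v).1, (θ.symm v).2) = v
      rw [Prod.mk.eta, LinearEquiv.apply_symm_apply]
    rw [e] at this
    exact this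
  refine ⟨fun v => s (π v) * (f v + 1), ?_, ?_, ?_⟩
  · -- nonzero
    obtain ⟨x0, hx0⟩ := Function.ne_iff.mp hs0
    have hx0Z : x0 ∉ Z := fun hh => hx0 (h3 x0 hh)
    have hval : ∀ y, s (π (θ (x0, y))) * (f (θ (x0, y)) + 1)
        = s x0 * (h x0 + ∑ i, Φ i x0 * y i + 1) := by
      intro y
      have e : π (θ (x0, y)) = x0 := by
        change (θ.symm (θ (x0, y))).1 = x0
        rw [LinearEquiv.symm_apply_apply]
      rw [e, hf]
    intro hzero
    have hall : ∀ y : Fin r → ZMod 2, h x0 + ∑ i, Φ i x0 * y i + 1 = 0 := by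
      intro y
      have h4 : s (π (θ (x0, y))) * (f (θ (x0, y)) + 1) = 0 := congrFun hzero (θ (x0, y))
      rw [hval] at h4
      rcases mul_eq_zero.mp h4 with h5 | h5
      · exact absurd h5 hx0
      · exact h5
    apply hx0Z
    rw [hZ, mem_filter]
    have hh1 : h x0 = 1 := by
      have := hall 0
      simp only [Pi.zero_apply, mul_zero, sum_const_zero, add_zero] at this
      have h6 : ∀ u : ZMod 2, u + 1 = 0 → u = 1 := by decide
      exact h6 _ this
    refine ⟨mem_univ _, fun i => ?_, hh1⟩
    have := hall (Pi.single i 1)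
    rw [hh1] at this
    have e : ∑ j, Φ j x0 * (Pi.single i (1 : ZMod 2) : Fin r → ZMod 2) j = Φ i x0 := by
      rw [sum_eq_single_of_mem i (mem_univ _)]
      · simp
      · intro j _ hj
        simp [hj]
    rw [e] at this
    have h6 : ∀ u : ZMod 2, 1 + u + 1 = 0 → u = 0 := by decide
    exact h6 _ this
  · -- annihilates
    intro x
    have : ∀ u v : ZMod 2, u * (v * (u + 1)) = 0 := by decide
    exact this _ _
  · -- degree
    have e : (fun v => s (π v) * (f v + 1))
        = (fun v => s (π v) * (h (π v) + 1))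
          + ∑ i, (fun v => (s (π v) * Φ i (π v)) * κ v i) := by
      funext v
      rw [Pi.add_apply, Finset.sum_apply, hfv v]
      have : ∑ i, s (π v) * Φ i (π v) * κ v i = s (π v) * ∑ i, Φ i (π v) * κ v i := by
        rw [mul_sum]
        apply sum_congr rfl
        intro i _
        ring
      rw [this]
      ring
    rw [e]
    apply Submodule.add_mem
    · have e2 : (fun v => s (π v) * (h (π v) + 1))
          = ∑ S : Finset (Fin M), (coefEquiv M (fun x => s x * (h x + 1)) S) •
              (fun v => ∏ i ∈ S, π v i) := by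
        funext v
        have := coefEquiv_spec M (fun x => s x * (h x + 1)) (π v)
        rw [Finset.sum_apply]
        simp only [Pi.smul_apply, smul_eq_mul]
        exact this
      rw [e2]
      apply Submodule.sum_mem
      intro S _
      by_cases hS : d + 1 ≤ S.card
      · rw [h2 S hS, zero_smul]; exact Submodule.zero_mem _
      · exact Submodule.smul_mem _ _ (Dg_mono (by omega) (monomial_comp_mem π S))
    · apply Submodule.sum_mem
      intro i _
      have e2 : (fun v => (s (π v) * Φ i (π v)) * κ v i)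
          = ∑ S : Finset (Fin M), (coefEquiv M (fun x => s x * Φ i x) S) •
              (fun v => κ v i * ∏ j ∈ S, π v j) := by
        funext v
        have := coefEquiv_spec M (fun x => s x * Φ i x) (π v)
        rw [Finset.sum_apply]
        simp only [Pi.smul_apply, smul_eq_mul]
        rw [this, sum_mul]
        apply sum_congr rfl
        intro S _
        ring
      rw [e2]
      apply Submodule.sum_mem
      intro S _
      by_cases hS : d ≤ S.card
      · rw [h1 i S hS, zero_smul]; exact Submodule.zero_mem _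
      · apply Submodule.smul_mem
        exact Dg_mono (by omega) (functional_mul_mem (monomial_comp_mem π S)
          ((LinearMap.proj i).comp κ))

end Pool.Agent.Lib.MP_4ac633_lc
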