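import Pool.Agent.Lib.MP_4ac633_lc.TDFun
import Pool.Agent.Lib.MP_4ac633_lc.DigitSum

/-!
# Counting pairs with a given sum by transfer matrices
-/

set_option autoImplicit false

namespace Pool.Agent.Lib.MP_4ac633_lc.TD

open MvPolynomial

/-- The sum of a function of `ds a + ds b - k` over the pairs of `k`-bit numbers with
`a + b + c = t + 2 ^ k * c'`. -/
def S (k t c c' : ℕ) (F : ℤ → ℚ) : ℚ :=
  ∑ a ∈ Finset.range (2 ^ k), ∑ b ∈ Finset.range (2 ^ k),
    if a + b + c = t + 2 ^ k * c' then F ((ds a : ℤ) + ds b - k) else 0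

/-- The word of the `k` lowest binary digits of `t`. -/
def bits : ℕ → ℕ → List Bool
  | 0, _ => []
  | k + 1, t => (decide (t % 2 = 1)) :: bits k (t / 2)

/-- The function of the exponents attached to a function of the difference. -/
def G (F : ℤ → ℚ) : ℕ → ℕ → ℚ := fun i j => (1 / 2) ^ (i + j) * F ((i : ℤ) - j)

theorem L_G_x (F : ℤ → ℚ) (f : R) : L (G F) (x * f) = 1 / 2 * L (G (fun n => F (n + 1))) f := by
  rw [L_x_mul, L_smul]
  apply L_congr
  intro i j
  simp only [G]
  have e1 : i + 1 + j = (i + j) + 1 := by ring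
  have e2 : ((i + 1 : ℕ) : ℤ) - j = (i : ℤ) - j + 1 := by push_cast; ring
  rw [e1, e2, pow_succ]
  ring

theorem L_G_y (F : ℤ → ℚ) (f : R) : L (G F) (y * f) = 1 / 2 * L (G (fun n => F (n - 1))) f := by
  rw [L_y_mul, L_smul]
  apply L_congr
  intro i j
  simp only [G]
  have e1 : i + (j + 1) = (i + j) + 1 := by ring
  have e2 : (i : ℤ) - ((j + 1 : ℕ) : ℤ) = (i : ℤ) - j - 1 := by push_cast; ring
  rw [e1, e2, pow_succ]
  ring

theorem L_G_one (F : ℤ → ℚ) : L (G F) 1 = F 0 := by
  have h1 : (1 : R) = monomial 0 1 := rfl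
  rw [h1, L_monomial]
  simp [G]

theorem sum_range_two_pow_succ (k : ℕ) (f : ℕ → ℚ) :
    ∑ i ∈ Finset.range (2 ^ (k + 1)), f i
      = ∑ j ∈ Finset.range (2 ^ k), (f (2 * j) + f (2 * j + 1)) := by
  rw [pow_succ, Nat.mul_comm]
  generalize 2 ^ k = n
  induction n with
  | zero => simp
  | succ n ihn =>
    rw [Nat.mul_succ, Finset.sum_range_succ, Finset.sum_range_succ, ihn, Finset.sum_range_succ]
    ring

/-- One digit of the carry analysis. -/
def T (k t c c' al be : ℕ) (F : ℤ → ℚ) : ℚ :=
  ∑ a ∈ Finset.range (2 ^ k), ∑ b ∈ Finset.range (2 ^ k),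
    if (2 * a + al) + (2 * b + be) + c = t + 2 ^ (k + 1) * c' then
      F ((ds (2 * a + al) : ℤ) + ds (2 * b + be) - (k + 1 : ℕ)) else 0

theorem S_succ (k t c c' : ℕ) (F : ℤ → ℚ) :
    S (k + 1) t c c' F = T k t c c' 0 0 F + T k t c c' 0 1 F + T k t c c' 1 0 F
      + T k t c c' 1 1 F := by
  rw [S, sum_range_two_pow_succ]
  simp only [sum_range_two_pow_succ, T, ← Finset.sum_add_distrib]
  apply Finset.sum_congr rfl
  intro a _
  apply Finset.sum_congr rfl
  intro b _
  simp only [Nat.add_zero]
  ring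

theorem ds_digit (a al : ℕ) (h : al ≤ 1) : ds (2 * a + al) = ds a + al := by
  interval_cases al
  · simpa using ds_two_mul a
  · exact ds_two_mul_add_one a

/-- The digits match: the term is a sum for `k` digits. -/
theorem T_match (k t' tau c c' al be c'' : ℕ) (F : ℤ → ℚ) (hal : al ≤ 1) (hbe : be ≤ 1)
    (h : al + be + c = tau + 2 * c'') :
    T k (2 * t' + tau) c c' al be F = S k t' c'' c' (fun n => F (n + (al + be - 1))) := by
  rw [T, S]
  apply Finset.sum_congr rfl
  intro a _
  apply Finset.sum_congr rfl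
  intro b _
  have e1 : ((2 * a + al) + (2 * b + be) + c = 2 * t' + tau + 2 ^ (k + 1) * c')
      ↔ (a + b + c'' = t' + 2 ^ k * c') := by
    have : 2 ^ (k + 1) * c' = 2 * (2 ^ k * c') := by rw [pow_succ]; ring
    rw [this]
    omega
  simp only [e1, ds_digit _ _ hal, ds_digit _ _ hbe]
  split_ifs
  · congr 1
    push_cast
    ring
  · rfl

/-- The digits do not match: the term vanishes. -/
theorem T_mismatch (k t' tau c c' al be : ℕ) (F : ℤ → ℚ)
    (h : (al + be + c) % 2 ≠ tau % 2) :
    T k (2 * t' + tau) c c' al be F = 0 := by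
  rw [T]
  apply Finset.sum_eq_zero
  intro a _
  apply Finset.sum_eq_zero
  intro b _
  rw [if_neg]
  have : 2 ^ (k + 1) * c' = 2 * (2 ^ k * c') := by rw [pow_succ]; ring
  rw [this]
  omega

theorem bits_true (k t' : ℕ) : bits (k + 1) (2 * t' + 1) = true :: bits k t' := by
  have h1 : (2 * t' + 1) % 2 = 1 := by omega
  have h2 : (2 * t' + 1) / 2 = t' := by omega
  simp [bits, h1, h2]

theorem bits_false (k t' : ℕ) : bits (k + 1) (2 * t') = false :: bits k t' := by
  have h1 : (2 * t') % 2 = 0 := by omega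
  have h2 : (2 * t') / 2 = t' := by omega
  simp [bits, h1, h2]

/-- The transfer matrix formula. -/
theorem S_eq (k t : ℕ) (ht : t < 2 ^ k) (c c' : Fin 2) (F : ℤ → ℚ) :
    S k t c c' F = 2 ^ k * L (G F) (M (bits k t) c c') := by
  induction k generalizing t c F with
  | zero =>
    have : t = 0 := by simpa using ht
    subst this
    have hc : c = 0 ∨ c = 1 := by fin_cases c <;> simp
    have hc' : c' = 0 ∨ c' = 1 := by fin_cases c' <;> simp
    rcases hc with rfl | rfl <;> rcases hc' with rfl | rfl <;>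
      simp [S, bits, M, ds_zero, L_G_one]
  | succ k ih =>
    rw [pow_succ] at ht
    rw [S_succ]
    rcases Nat.even_or_odd' t with ⟨t', rfl | rfl⟩
    · have ht' : t' < 2 ^ k := by omega
      rw [bits_false]
      have hc : c = 0 ∨ c = 1 := by fin_cases c <;> simp
      rcases hc with rfl | rfl
      · have a1 := T_match k t' 0 0 c' 0 0 0 F (by norm_num) (by norm_num) (by norm_num)
        have a2 := T_mismatch k t' 0 0 c' 0 1 F (by norm_num)
        have a3 := T_mismatch k t' 0 0 c' 1 0 F (by norm_num)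
        have a4 := T_match k t' 0 0 c' 1 1 1 F (by norm_num) (by norm_num) (by norm_num)
        simp only [Nat.add_zero] at a1 a2 a3 a4
        have i1 := ih t' ht' 0 (fun n => F (n - 1))
        have i2 := ih t' ht' 1 (fun n => F (n + 1))
        simp only [Fin.val_zero, Fin.val_one] at i1 i2 ⊢
        rw [a1, a2, a3, a4]
        have e1 : (fun n : ℤ => F (n + (((0 : ℕ) : ℤ) + ((0 : ℕ) : ℤ) - 1)))
            = fun n => F (n - 1) := by
          funext n; congr 1
        have e2 : (fun n : ℤ => F (n + (((1 : ℕ) : ℤ) + ((1 : ℕ) : ℤ) - 1)))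
            = fun n => F (n + 1) := by
          funext n; congr 1
        rw [e1, e2, i1, i2]
        have e3 : M (false :: bits k t') 0 c' = y * M (bits k t') 0 c' + x * M (bits k t') 1 c' := by
          simp [M, mat, Matrix.mul_apply, Fin.sum_univ_two]
        rw [e3, map_add, L_G_x, L_G_y, pow_succ]
        ring
      · have a1 := T_mismatch k t' 0 1 c' 0 0 F (by norm_num)
        have a2 := T_match k t' 0 1 c' 0 1 1 F (by norm_num) (by norm_num) (by norm_num)
        have a3 := T_match k t' 0 1 c' 1 0 1 F (by norm_num) (by norm_num) (by norm_num)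
        have a4 := T_mismatch k t' 0 1 c' 1 1 F (by norm_num)
        simp only [Nat.add_zero] at a1 a2 a3 a4
        have i1 := ih t' ht' 1 F
        simp only [Fin.val_one] at i1 ⊢
        rw [a1, a2, a3, a4]
        have e1 : (fun n : ℤ => F (n + (((0 : ℕ) : ℤ) + ((1 : ℕ) : ℤ) - 1))) = F := by
          funext n; congr 1; push_cast; ring
        have e2 : (fun n : ℤ => F (n + (((1 : ℕ) : ℤ) + ((0 : ℕ) : ℤ) - 1))) = F := by
          funext n; congr 1; push_cast; ring
        rw [e1, e2, i1]
        have e3 : M (false :: bits k t') 1 c' = M (bits k t') 1 c' := by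
          simp [M, mat, Matrix.mul_apply, Fin.sum_univ_two]
        rw [e3, pow_succ]
        ring
    · have ht' : t' < 2 ^ k := by omega
      rw [bits_true]
      have hc : c = 0 ∨ c = 1 := by fin_cases c <;> simp
      rcases hc with rfl | rfl
      · have a1 := T_mismatch k t' 1 0 c' 0 0 F (by norm_num)
        have a2 := T_match k t' 1 0 c' 0 1 0 F (by norm_num) (by norm_num) (by norm_num)
        have a3 := T_match k t' 1 0 c' 1 0 0 F (by norm_num) (by norm_num) (by norm_num)
        have a4 := T_mismatch k t' 1 0 c' 1 1 F (by norm_num)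
        have i1 := ih t' ht' 0 F
        simp only [Fin.val_zero] at i1 ⊢
        rw [a1, a2, a3, a4]
        have e1 : (fun n : ℤ => F (n + (((0 : ℕ) : ℤ) + ((1 : ℕ) : ℤ) - 1))) = F := by
          funext n; congr 1; push_cast; ring
        have e2 : (fun n : ℤ => F (n + (((1 : ℕ) : ℤ) + ((0 : ℕ) : ℤ) - 1))) = F := by
          funext n; congr 1; push_cast; ring
        rw [e1, e2, i1]
        have e3 : M (true :: bits k t') 0 c' = M (bits k t') 0 c' := by
          simp [M, mat, Matrix.mul_apply, Fin.sum_univ_two]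
        rw [e3, pow_succ]
        ring
      · have a1 := T_match k t' 1 1 c' 0 0 0 F (by norm_num) (by norm_num) (by norm_num)
        have a2 := T_mismatch k t' 1 1 c' 0 1 F (by norm_num)
        have a3 := T_mismatch k t' 1 1 c' 1 0 F (by norm_num)
        have a4 := T_match k t' 1 1 c' 1 1 1 F (by norm_num) (by norm_num) (by norm_num)
        have i1 := ih t' ht' 0 (fun n => F (n - 1))
        have i2 := ih t' ht' 1 (fun n => F (n + 1))
        simp only [Fin.val_zero, Fin.val_one] at i1 i2 ⊢
        rw [a1, a2, a3, a4]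
        have e1 : (fun n : ℤ => F (n + (((0 : ℕ) : ℤ) + ((0 : ℕ) : ℤ) - 1)))
            = fun n => F (n - 1) := by
          funext n; congr 1
        have e2 : (fun n : ℤ => F (n + (((1 : ℕ) : ℤ) + ((1 : ℕ) : ℤ) - 1)))
            = fun n => F (n + 1) := by
          funext n; congr 1
        rw [e1, e2, i1, i2]
        have e3 : M (true :: bits k t') 1 c' = y * M (bits k t') 0 c' + x * M (bits k t') 1 c' := by
          simp [M, mat, Matrix.mul_apply, Fin.sum_univ_two]
        rw [e3, map_add, L_G_x, L_G_y, pow_succ]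
        ring

end Pool.Agent.Lib.MP_4ac633_lc.TD
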