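import Pool.Agent.Lib.MP_4ac633_lc.TDPoly

/-!
# The test functional of the Tu-Deng problem
-/

set_option autoImplicit false

namespace Pool.Agent.Lib.MP_4ac633_lc.TD

open MvPolynomial

/-- `1/2` below the diagonal, `-1/2` elsewhere. -/
def chi (i j : ℕ) : ℚ := if i < j then 1 / 2 else - 1 / 2

/-- The (rescaled) test function. -/
def psi : ℕ → ℕ → ℚ
  | 0, j => - 1 / (2 * j)
  | i + 1, j => (2 * (i + 1) * psi i j - chi (i + 1) j) / (i + 1 + j)

theorem psi_step (i j : ℕ) (h : i ≠ 0 ∨ j ≠ 0) :
    2 * i * psi (i - 1) j - (i + j) * psi i j = chi i j := by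
  cases i with
  | zero =>
    have hj : j ≠ 0 := by tauto
    have hj' : (j : ℚ) ≠ 0 := by exact_mod_cast hj
    have h0 : 0 < j := Nat.pos_of_ne_zero hj
    simp only [psi, chi, h0, if_true]
    field_simp
    simp
  | succ i =>
    have h2 : ((i : ℚ) + 1 + j) ≠ 0 := by positivity
    simp only [psi, Nat.add_sub_cancel]
    push_cast
    field_simp
    ring

theorem psi_harm (i j : ℕ) : psi i j - psi (i + 1) j / 2 - psi i (j + 1) / 2
    = (if j = i + 1 then - 1 / (4 * (j : ℚ)) else 0 : ℚ) := by
  induction i with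
  | zero =>
    rcases Nat.lt_trichotomy j 1 with h | h | h
    · have : j = 0 := by omega
      subst this
      norm_num [psi, chi]
    · subst h
      norm_num [psi, chi]
    · have h1 : ¬ (j = 0 + 1) := by omega
      have h2 : 0 + 1 < j := by omega
      have h3 : (j : ℚ) ≠ 0 := by
        have : j ≠ 0 := by omega
        exact_mod_cast this
      have h4 : (1 + (j : ℚ)) ≠ 0 := by positivity
      have h5 : ((j : ℚ) + 1) ≠ 0 := by positivity
      simp only [h1, if_false, psi, chi, h2, if_true]
      push_cast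
      have h6 : ((0 : ℚ) + 1 + j) ≠ 0 := by positivity
      field_simp
      ring
  | succ i ih =>
    have e1 := psi_step (i + 1) j (by omega)
    have e2 := psi_step (i + 2) j (by omega)
    have e3 := psi_step (i + 1) (j + 1) (by omega)
    simp only [Nat.add_sub_cancel, show i + 2 - 1 = i + 1 by omega] at e1 e2 e3
    push_cast at e1 e2 e3
    have hpos : (0 : ℚ) < i + 1 + j + 1 := by positivity
    have key : ((i : ℚ) + 1 + j + 1) * (psi (i + 1) j - psi (i + 1 + 1) j / 2
        - psi (i + 1) (j + 1) / 2) = 2 * (i + 1) * (psi i j - psi (i + 1) j / 2 - psi i (j + 1) / 2)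
          - (chi (i + 1) j - chi (i + 2) j / 2 - chi (i + 1) (j + 1) / 2) := by
      rw [← e1, ← e2, ← e3]
      ring
    have key2 : psi (i + 1) j - psi (i + 1 + 1) j / 2 - psi (i + 1) (j + 1) / 2
        = (2 * (i + 1) * (psi i j - psi (i + 1) j / 2 - psi i (j + 1) / 2)
          - (chi (i + 1) j - chi (i + 2) j / 2 - chi (i + 1) (j + 1) / 2)) / (i + 1 + j + 1) := by
      rw [← key]
      field_simp
    rw [key2, ih]
    rcases Nat.lt_trichotomy j (i + 1) with h | h | h
    · have a1 : ¬ (j = i + 1) := by omega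
      have a2 : ¬ (j = i + 1 + 1) := by omega
      have a3 : ¬ (i + 1 < j) := by omega
      have a4 : ¬ (i + 2 < j) := by omega
      have a5 : ¬ (i + 1 < j + 1) := by omega
      simp only [a1, a2, chi, a3, a4, a5, if_false]
      norm_num
    · subst h
      have a2 : ¬ (i + 1 = i + 1 + 1) := by omega
      have a3 : ¬ (i + 1 < i + 1) := by omega
      have a4 : ¬ (i + 2 < i + 1) := by omega
      have a5 : (i + 1 < i + 1 + 1) := by omega
      simp only [a2, chi, a3, a4, a5, if_false, if_true]
      push_cast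
      field_simp
      norm_num
    · rcases Nat.lt_or_ge (i + 2) j with h' | h'
      · have a1 : ¬ (j = i + 1) := by omega
        have a2 : ¬ (j = i + 1 + 1) := by omega
        have a3 : (i + 1 < j) := by omega
        have a5 : (i + 1 < j + 1) := by omega
        simp only [a1, a2, chi, a3, h', a5, if_false, if_true]
        norm_num
      · have : j = i + 2 := by omega
        subst this
        have a1 : ¬ (i + 2 = i + 1) := by omega
        have a2 : (i + 2 = i + 1 + 1) := by omega
        have a3 : (i + 1 < i + 2) := by omega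
        have a4 : ¬ (i + 2 < i + 2) := by omega
        have a5 : (i + 1 < i + 2 + 1) := by omega
        simp only [a1, a2, chi, a3, a4, a5, if_false, if_true]
        push_cast
        field_simp
        ring

/-- The linear functional on polynomials given by a function of the exponents. -/
noncomputable def L (F : ℕ → ℕ → ℚ) : R →ₗ[ℚ] ℚ :=
  (MvPolynomial.basisMonomials (Fin 2) ℚ).constr ℚ (fun m => F (m 0) (m 1))

theorem L_monomial (F : ℕ → ℕ → ℚ) (m : Fin 2 →₀ ℕ) (c : ℚ) :
    L F (monomial m c) = c * F (m 0) (m 1) := by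
  have h : (monomial m c : R) = c • (MvPolynomial.basisMonomials (Fin 2) ℚ) m := by
    rw [MvPolynomial.coe_basisMonomials, MvPolynomial.smul_monomial]
    simp
  rw [h, map_smul, L, Module.Basis.constr_basis, smul_eq_mul]

theorem L_eq_sum (F : ℕ → ℕ → ℚ) (f : R) :
    L F f = ∑ m ∈ f.support, coeff m f * F (m 0) (m 1) := by
  conv_lhs => rw [f.as_sum]
  rw [map_sum]
  exact Finset.sum_congr rfl (fun m _ => L_monomial F m _)

/-- Functionals agreeing on monomials agree. -/
theorem L_ext {A B : R →ₗ[ℚ] ℚ} (h : ∀ m c, A (monomial m c) = B (monomial m c)) (f : R) :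
    A f = B f := by
  rw [f.as_sum, map_sum, map_sum]
  exact Finset.sum_congr rfl (fun m _ => h m _)

theorem x_mul_monomial (m : Fin 2 →₀ ℕ) (c : ℚ) :
    x * monomial m c = monomial (m + Finsupp.single 0 1) c := by
  rw [x, MvPolynomial.X, MvPolynomial.monomial_mul, one_mul, add_comm]

theorem y_mul_monomial (m : Fin 2 →₀ ℕ) (c : ℚ) :
    y * monomial m c = monomial (m + Finsupp.single 1 1) c := by
  rw [y, MvPolynomial.X, MvPolynomial.monomial_mul, one_mul, add_comm]

theorem L_x_mul (F : ℕ → ℕ → ℚ) (f : R) : L F (x * f) = L (fun i j => F (i + 1) j) f := by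
  rw [f.as_sum, Finset.mul_sum, map_sum, map_sum]
  apply Finset.sum_congr rfl
  intro m _
  rw [x_mul_monomial, L_monomial, L_monomial]
  simp

theorem L_y_mul (F : ℕ → ℕ → ℚ) (f : R) : L F (y * f) = L (fun i j => F i (j + 1)) f := by
  rw [f.as_sum, Finset.mul_sum, map_sum, map_sum]
  apply Finset.sum_congr rfl
  intro m _
  rw [y_mul_monomial, L_monomial, L_monomial]
  simp

theorem L_congr {F G : ℕ → ℕ → ℚ} (h : ∀ i j, F i j = G i j) (f : R) : L F f = L G f := by
  have : F = G := by funext i j; exact h i j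
  rw [this]

theorem L_sub (F G : ℕ → ℕ → ℚ) (f : R) : L F f - L G f = L (fun i j => F i j - G i j) f := by
  rw [L_eq_sum, L_eq_sum, L_eq_sum, ← Finset.sum_sub_distrib]
  exact Finset.sum_congr rfl (fun m _ => by ring)

theorem L_smul (a : ℚ) (F : ℕ → ℕ → ℚ) (f : R) : a * L F f = L (fun i j => a * F i j) f := by
  rw [L_eq_sum, L_eq_sum, Finset.mul_sum]
  exact Finset.sum_congr rfl (fun m _ => by ring)

theorem L_s_mul (F : ℕ → ℕ → ℚ) (f : R) :
    L F (s * f) = L (fun i j => F i j - F (i + 1) j - F i (j + 1)) f := by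
  have h : s * f = f - x * f - y * f := by rw [s]; ring
  rw [h, map_sub, map_sub, L_x_mul, L_y_mul, L_sub, L_sub]

/-- Polynomials with nonnegative coefficients. -/
def NN (f : R) : Prop := ∀ m, 0 ≤ coeff m f

theorem NN_zero : NN 0 := fun m => by simp

theorem NN_one : NN 1 := fun m => by
  rw [MvPolynomial.coeff_one]
  split_ifs <;> norm_num

theorem NN_X (i : Fin 2) : NN (X i) := fun m => by
  rw [MvPolynomial.coeff_X]
  split_ifs <;> norm_num

theorem NN_add {f h : R} (hf : NN f) (hh : NN h) : NN (f + h) := fun m => by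
  rw [MvPolynomial.coeff_add]
  exact add_nonneg (hf m) (hh m)

theorem NN_mul {f h : R} (hf : NN f) (hh : NN h) : NN (f * h) := fun m => by
  rw [MvPolynomial.coeff_mul]
  exact Finset.sum_nonneg (fun p _ => mul_nonneg (hf _) (hh _))

/-- A nonpositive functional on a polynomial with nonnegative coefficients. -/
theorem L_le_single {F : ℕ → ℕ → ℚ} (hF : ∀ i j, F i j ≤ 0) {f : R} (hf : NN f)
    (m : Fin 2 →₀ ℕ) : L F f ≤ coeff m f * F (m 0) (m 1) := by
  rw [L_eq_sum]
  by_cases hm : m ∈ f.support
  · rw [← Finset.add_sum_erase _ _ hm]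
    have : ∑ m' ∈ f.support.erase m, coeff m' f * F (m' 0) (m' 1) ≤ 0 :=
      Finset.sum_nonpos (fun m' _ => mul_nonpos_of_nonneg_of_nonpos (hf m') (hF _ _))
    linarith
  · have h0 : coeff m f = 0 := by simpa [MvPolynomial.mem_support_iff] using hm
    rw [h0, zero_mul]
    exact Finset.sum_nonpos (fun m' _ => mul_nonpos_of_nonneg_of_nonpos (hf m') (hF _ _))

/-- The test functional as a function of the exponents. -/
def phi (i j : ℕ) : ℚ := (1 / 2) ^ (i + j) * psi i j

theorem phi_harm (i j : ℕ) : phi i j - phi (i + 1) j - phi i (j + 1)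
    = (if j = i + 1 then - ((1 / 2) ^ (i + j) * (1 / (4 * (j : ℚ)))) else 0 : ℚ) := by
  have h := psi_harm i j
  have e : phi i j - phi (i + 1) j - phi i (j + 1)
      = (1 / 2) ^ (i + j) * (psi i j - psi (i + 1) j / 2 - psi i (j + 1) / 2) := by
    simp only [phi]
    have e1 : i + 1 + j = (i + j) + 1 := by ring
    have e2 : i + (j + 1) = (i + j) + 1 := by ring
    rw [e1, e2, pow_succ]
    ring
  rw [e, h]
  split_ifs
  · ring
  · ring

theorem phi_harm_nonpos (i j : ℕ) : phi i j - phi (i + 1) j - phi i (j + 1) ≤ 0 := by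
  rw [phi_harm]
  split_ifs
  · have : (0 : ℚ) ≤ (1 / 2) ^ (i + j) * (1 / (4 * (j : ℚ))) := by positivity
    linarith
  · exact le_rfl

theorem sub_add_single (m : Fin 2 →₀ ℕ) (a : Fin 2) (h : 0 < m a) :
    m - Finsupp.single a 1 + Finsupp.single a 1 = m := by
  ext i
  by_cases hi : i = a
  · subst hi
    simp only [Finsupp.add_apply, Finsupp.tsub_apply, Finsupp.single_eq_same]
    omega
  · simp [Finsupp.single_eq_of_ne hi]

theorem D_monomial (m : Fin 2 →₀ ℕ) (c : ℚ) :
    D (monomial m c) = monomial (m - Finsupp.single 0 1) (c * m 0) - monomial m (c * m 0)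
      - monomial m (c * m 1) := by
  rw [D, MvPolynomial.pderiv_monomial, MvPolynomial.pderiv_monomial, sub_mul, one_mul,
    x_mul_monomial, y_mul_monomial]
  congr 1
  · congr 1
    rcases Nat.eq_zero_or_pos (m 0) with h | h
    · rw [h]; simp
    · rw [sub_add_single m _ h]
  · rcases Nat.eq_zero_or_pos (m 1) with h | h
    · rw [h]; simp
    · rw [sub_add_single m _ h]

/-- The functional identity: `Φ (D f) = Λ f` up to the constant term. -/
theorem L_D (f : R) : L phi (D f)
    = L (fun i j => (1 / 2) ^ (i + j) * chi i j) f + coeff 0 f / 2 := by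
  rw [L_eq_sum (fun i j => (1 / 2) ^ (i + j) * chi i j)]
  have hD : D f = ∑ m ∈ f.support, D (monomial m (coeff m f)) := by
    conv_lhs => rw [f.as_sum]
    simp only [D, map_sum, Finset.mul_sum, Finset.sum_sub_distrib]
  have hc : coeff 0 f / 2 = ∑ m ∈ f.support, (if m = 0 then coeff m f / 2 else 0) := by
    rw [Finset.sum_ite_eq']
    split_ifs with h
    · rfl
    · have h0 : coeff 0 f = 0 := by simpa [MvPolynomial.mem_support_iff] using h
      rw [h0]; simp
  rw [hD, map_sum, hc, ← Finset.sum_add_distrib]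
  apply Finset.sum_congr rfl
  intro m _
  rw [D_monomial, map_sub, map_sub, L_monomial, L_monomial, L_monomial]
  by_cases hm : m = 0
  · subst hm
    simp [phi, chi]
    ring
  · rw [if_neg hm]
    have h01 : m 0 ≠ 0 ∨ m 1 ≠ 0 := by
      by_contra hcon
      push Not at hcon
      apply hm
      ext i
      fin_cases i
      · exact hcon.1
      · exact hcon.2
    have hs := psi_step (m 0) (m 1) h01
    have e0 : (m - Finsupp.single 0 1 : Fin 2 →₀ ℕ) 0 = m 0 - 1 := by simp
    have e1 : (m - Finsupp.single 0 1 : Fin 2 →₀ ℕ) 1 = m 1 := by simp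
    rw [e0, e1, add_zero, ← hs]
    simp only [phi]
    rcases Nat.eq_zero_or_pos (m 0) with h | h
    · rw [h]
      push_cast
      ring
    · have e2 : m 0 + m 1 = (m 0 - 1 + m 1) + 1 := by omega
      rw [e2, pow_succ]
      ring

end Pool.Agent.Lib.MP_4ac633_lc.TD
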