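import Pool.Agent.Lib.MP_4ac633_lc.TDCount
import Pool.Agent.Lib.MP_4ac633_lc.Count

/-!
# The Tu-Deng inequality
-/

set_option autoImplicit false

namespace Pool.Agent.Lib.MP_4ac633_lc.TD

open MvPolynomial

/-! ### Nonnegativity -/

theorem NN_mat (b : Bool) (i j : Fin 2) : NN (mat b i j) := by
  have hi : i = 0 ∨ i = 1 := by fin_cases i <;> simp
  have hj : j = 0 ∨ j = 1 := by fin_cases j <;> simp
  cases b <;> rcases hi with rfl | rfl <;> rcases hj with rfl | rfl <;>
    simp [mat, NN_zero, NN_one, NN_X]

theorem NN_M (u : List Bool) (i j : Fin 2) : NN (M u i j) := by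
  induction u generalizing i with
  | nil =>
    rw [M, Matrix.one_apply]
    split_ifs
    · exact NN_one
    · exact NN_zero
  | cons b u ih =>
    rw [M, Matrix.mul_apply, Fin.sum_univ_two]
    exact NN_add (NN_mul (NN_mat b i 0) (ih 0)) (NN_mul (NN_mat b i 1) (ih 1))

theorem NN_g (u : List Bool) (j : Fin 2) : NN (g u j) := by
  induction u with
  | nil => exact NN_zero
  | cons b u ih =>
    cases b
    · exact NN_add (NN_M u 1 j) (NN_mul (NN_X 1) ih)
    · exact NN_mul (NN_X 0) ih

theorem NN_W (w p : List Bool) : NN (W p w) := by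
  induction w generalizing p with
  | nil => exact NN_zero
  | cons b q ih => exact NN_add (NN_g _ _) (ih _)

/-! ### Strictness -/

/-- The exponent `(i, j)`. -/
noncomputable def ex (i j : ℕ) : Fin 2 →₀ ℕ := Finsupp.single 0 i + Finsupp.single 1 j

theorem ex_zero (i j : ℕ) : ex i j 0 = i := by simp [ex]

theorem ex_one (i j : ℕ) : ex i j 1 = j := by simp [ex]

theorem coeff_x_mul (i j : ℕ) (f : R) : coeff (ex (i + 1) j) (x * f) = coeff (ex i j) f := by
  have e : ex (i + 1) j = Finsupp.single 0 1 + ex i j := by
    rw [ex, ex, Finsupp.single_add]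
    abel
  rw [e, x, MvPolynomial.coeff_X_mul]

theorem coeff_y_mul (i j : ℕ) (f : R) : coeff (ex i (j + 1)) (y * f) = coeff (ex i j) f := by
  have e : ex i (j + 1) = Finsupp.single 1 1 + ex i j := by
    rw [ex, ex, Finsupp.single_add]
    abel
  rw [e, y, MvPolynomial.coeff_X_mul]

theorem coeff_M (u : List Bool) : 1 ≤ coeff (ex (u.count true) 0) (M u 1 1) := by
  induction u with
  | nil => simp [M, ex]
  | cons b u ih =>
    cases b
    · have e : M (false :: u) 1 1 = M u 1 1 := by
        simp [M, mat, Matrix.mul_apply, Fin.sum_univ_two]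
      rw [e]
      simpa using ih
    · have e : M (true :: u) 1 1 = y * M u 0 1 + x * M u 1 1 := by
        simp [M, mat, Matrix.mul_apply, Fin.sum_univ_two]
      rw [e, MvPolynomial.coeff_add]
      have h1 : (true :: u).count true = u.count true + 1 := by simp
      rw [h1, coeff_x_mul]
      have h2 := NN_mul (NN_X 1) (NN_M u 0 1) (ex (u.count true + 1) 0)
      linarith

theorem coeff_g (u : List Bool) (j : ℕ) (hj : j < u.count false) :
    1 ≤ coeff (ex (u.count true) j) (g u 1) := by
  induction u generalizing j with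
  | nil => simp at hj
  | cons b u ih =>
    cases b
    · have h1 : (false :: u).count true = u.count true := by simp
      have h2 : (false :: u).count false = u.count false + 1 := by simp
      rw [h1]
      rw [h2] at hj
      simp only [g, MvPolynomial.coeff_add]
      cases j with
      | zero =>
        have h3 := coeff_M u
        have h4 := NN_mul (NN_X 1) (NN_g u 1) (ex (u.count true) 0)
        linarith
      | succ j =>
        rw [coeff_y_mul]
        have h3 := ih j (by omega)
        have h4 := NN_M u 1 1 (ex (u.count true) (j + 1))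
        linarith
    · have h1 : (true :: u).count true = u.count true + 1 := by simp
      have h2 : (true :: u).count false = u.count false := by simp
      rw [h1]
      rw [h2] at hj
      simp only [g]
      rw [coeff_x_mul]
      exact ih j hj

theorem coeff_W (w p : List Bool) (h : true ∈ w) (j : ℕ)
    (hj : j < w.count false + p.count false) :
    1 ≤ coeff (ex (w.count true + p.count true - 1) j) (W p w) := by
  induction w generalizing p with
  | nil => simp at h
  | cons b q ih =>
    rw [W, MvPolynomial.coeff_add]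
    cases b
    · have h' : true ∈ q := by simpa using h
      have h1 : (false :: q).count true = q.count true := by simp
      have h2 : (false :: q).count false = q.count false + 1 := by simp
      rw [h2] at hj
      have h3 : (p ++ [false]).count true = p.count true := by simp
      have h4 : (p ++ [false]).count false = p.count false + 1 := by simp
      have h5 := ih (p ++ [false]) h' (by rw [h4]; omega)
      rw [h3] at h5
      rw [h1]
      have h6 := NN_g (q ++ p) (st false) (ex (q.count true + p.count true - 1) j)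
      linarith
    · have h1 : (true :: q).count true = q.count true + 1 := by simp
      have h2 : (true :: q).count false = q.count false := by simp
      rw [h2] at hj
      have h3 := coeff_g (q ++ p) j (by rw [List.count_append]; exact hj)
      rw [List.count_append] at h3
      have e : (true :: q).count true + p.count true - 1 = q.count true + p.count true := by
        rw [h1]; omega
      rw [e]
      have h6 := NN_W q (p ++ [true]) (ex (q.count true + p.count true) j)
      simp only [st]
      linarith

/-! ### Evaluation at `1/2` and constant terms -/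

/-- Evaluation at `x = y = 1/2`. -/
noncomputable def ev : R →+* ℚ := MvPolynomial.eval (fun _ => 1 / 2)

theorem ev_x : ev x = 1 / 2 := by simp [ev]

theorem ev_y : ev y = 1 / 2 := by simp [ev]

theorem ev_eq_L (f : R) : L (fun i j => (1 / 2) ^ (i + j)) f = ev f := by
  rw [L_eq_sum, ev, MvPolynomial.eval_eq']
  apply Finset.sum_congr rfl
  intro m _
  rw [Fin.prod_univ_two, pow_add]

theorem M_cons_true (u : List Bool) (j : Fin 2) :
    M (true :: u) 0 j = M u 0 j ∧ M (true :: u) 1 j = y * M u 0 j + x * M u 1 j := by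
  constructor <;> simp [M, mat, Matrix.mul_apply, Fin.sum_univ_two]

theorem M_cons_false (u : List Bool) (j : Fin 2) :
    M (false :: u) 0 j = y * M u 0 j + x * M u 1 j ∧ M (false :: u) 1 j = M u 1 j := by
  constructor <;> simp [M, mat, Matrix.mul_apply, Fin.sum_univ_two]

theorem ev_M (u : List Bool) : ev (M u 0 0) + ev (M u 0 1) = 1 ∧ ev (M u 1 0) + ev (M u 1 1) = 1 ∧
    ev (M u 0 0) * ev (M u 1 1) - ev (M u 0 1) * ev (M u 1 0) = (1 / 2) ^ u.length := by
  induction u with
  | nil => simp [M]
  | cons b u ih =>
    obtain ⟨h1, h2, h3⟩ := ih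
    cases b
    · obtain ⟨a0, b0⟩ := M_cons_false u 0
      obtain ⟨a1, b1⟩ := M_cons_false u 1
      rw [a0, a1, b0, b1]
      simp only [map_add, map_mul, ev_x, ev_y, List.length_cons, pow_succ]
      rw [← h3]
      refine ⟨by linarith, by linarith, by ring⟩
    · obtain ⟨a0, b0⟩ := M_cons_true u 0
      obtain ⟨a1, b1⟩ := M_cons_true u 1
      rw [a0, a1, b0, b1]
      simp only [map_add, map_mul, ev_x, ev_y, List.length_cons, pow_succ]
      rw [← h3]
      refine ⟨by linarith, by linarith, by ring⟩

theorem ev_trace (u : List Bool) : ev (M u).trace = 1 + (1 / 2) ^ u.length := by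
  obtain ⟨h1, h2, h3⟩ := ev_M u
  rw [Matrix.trace, Fin.sum_univ_two]
  simp only [Matrix.diag_apply, map_add]
  have e1 : ev (M u 0 1) = 1 - ev (M u 0 0) := by linarith
  have e2 : ev (M u 1 0) = 1 - ev (M u 1 1) := by linarith
  rw [e1, e2] at h3
  linarith

theorem L_wt (F : ℕ → ℕ → ℚ) (u : List Bool) : L F (wt u) = F (u.count true) (u.count false) := by
  induction u generalizing F with
  | nil =>
    have h1 : (1 : R) = monomial 0 1 := rfl
    rw [wt, h1, L_monomial]
    simp
  | cons b u ih =>
    cases b
    · rw [wt, lt, L_y_mul, ih]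
      simp
    · rw [wt, lt, L_x_mul, ih]
      simp

theorem coeff0 (f : R) : coeff 0 f = constantCoeff f := rfl

theorem cc_M (u : List Bool) : constantCoeff (M u 0 0) = (if false ∈ u then 0 else 1 : ℚ) ∧
    constantCoeff (M u 0 1) = (0 : ℚ) ∧ constantCoeff (M u 1 0) = (0 : ℚ) ∧
    constantCoeff (M u 1 1) = (if true ∈ u then 0 else 1 : ℚ) := by
  induction u with
  | nil => simp [M]
  | cons b u ih =>
    obtain ⟨h1, h2, h3, h4⟩ := ih
    cases b
    · obtain ⟨a0, b0⟩ := M_cons_false u 0
      obtain ⟨a1, b1⟩ := M_cons_false u 1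
      rw [a0, a1, b0, b1]
      simp [h3, h4]
    · obtain ⟨a0, b0⟩ := M_cons_true u 0
      obtain ⟨a1, b1⟩ := M_cons_true u 1
      rw [a0, a1, b0, b1]
      simp [h1, h2]

theorem cc_wt (u : List Bool) (h : u ≠ []) : constantCoeff (wt u) = (0 : ℚ) := by
  cases u with
  | nil => exact absurd rfl h
  | cons b u => cases b <;> simp [wt, lt]

theorem cc_diff (u : List Bool) (ht : true ∈ u) (hf : false ∈ u) :
    coeff 0 ((M u).trace - wt u) = 0 := by
  obtain ⟨h1, _, _, h4⟩ := cc_M u
  rw [coeff0, map_sub, Matrix.trace, Fin.sum_univ_two, map_add]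
  simp only [Matrix.diag_apply]
  rw [h1, h4, cc_wt u (List.ne_nil_of_mem ht)]
  simp [ht, hf]

/-! ### The digits -/

theorem length_bits (k t : ℕ) : (bits k t).length = k := by
  induction k generalizing t with
  | zero => rfl
  | succ k ih => simp [bits, ih]

theorem true_mem_bits (k t : ℕ) (ht : t < 2 ^ k) (h0 : 0 < t) : true ∈ bits k t := by
  induction k generalizing t with
  | zero => simp at ht; omega
  | succ k ih =>
    rw [pow_succ] at ht
    rw [bits]
    by_cases h : t % 2 = 1
    · simp [h]
    · have := ih (t / 2) (by omega) (by omega)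
      simp [this]

theorem false_mem_bits (k t : ℕ) (ht : t < 2 ^ k - 1) : false ∈ bits k t := by
  induction k generalizing t with
  | zero => simp at ht
  | succ k ih =>
    rw [pow_succ] at ht
    rw [bits]
    by_cases h : t % 2 = 1
    · have := ih (t / 2) (by omega)
      simp [this]
    · simp [h]

/-! ### The inequality -/

/-- The indicator function of the negative integers. -/
def neg (n : ℤ) : ℚ := if n < 0 then 1 else 0

theorem L_G_neg (f : R) : L (G neg) f
    = L (fun i j => (1 / 2) ^ (i + j) * chi i j) f + 1 / 2 * ev f := by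
  rw [← ev_eq_L, L_smul, L_eq_sum, L_eq_sum, L_eq_sum, ← Finset.sum_add_distrib]
  apply Finset.sum_congr rfl
  intro m _
  have : neg ((m 0 : ℤ) - (m 1 : ℤ)) = chi (m 0) (m 1) + 1 / 2 := by
    unfold neg chi
    by_cases h : m 0 < m 1
    · have h' : (m 0 : ℤ) - (m 1 : ℤ) < 0 := by omega
      rw [if_pos h, if_pos h']
      norm_num
    · have h' : ¬ ((m 0 : ℤ) - (m 1 : ℤ) < 0) := by omega
      rw [if_neg h, if_neg h']
      norm_num
  simp only [G, this]
  ring

/-- The weight of the negative part of the trace. -/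
theorem trace_eq (u : List Bool) (ht : true ∈ u) (hf : false ∈ u) :
    L (G neg) (M u).trace = 1 / 2 + (1 / 2) ^ u.length * (chi (u.count true) (u.count false) + 1 / 2)
      + L phi (s * W [] u) := by
  have h1 := L_D ((M u).trace - wt u)
  rw [D_trace, cc_diff u ht hf, zero_div, add_zero] at h1
  have h2 : L (G neg) (M u).trace = L (G neg) ((M u).trace - wt u) + L (G neg) (wt u) := by
    rw [← map_add, sub_add_cancel]
  have hlen : u.count true + u.count false = u.length := by
    rw [List.count_true_add_count_false]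
  rw [h2, L_G_neg, ← h1, map_sub, ev_trace, L_G_neg, L_wt, ← ev_eq_L, L_wt]
  rw [hlen]
  ring

theorem W_nonpos (u : List Bool) : L phi (s * W [] u) ≤ 0 := by
  rw [L_s_mul]
  have h := L_le_single phi_harm_nonpos (NN_W u []) 0
  have h2 : coeff 0 (W [] u) * (phi ((0 : Fin 2 →₀ ℕ) 0) ((0 : Fin 2 →₀ ℕ) 1)
      - phi ((0 : Fin 2 →₀ ℕ) 0 + 1) ((0 : Fin 2 →₀ ℕ) 1)
      - phi ((0 : Fin 2 →₀ ℕ) 0) ((0 : Fin 2 →₀ ℕ) 1 + 1)) ≤ 0 :=
    mul_nonpos_of_nonneg_of_nonpos (NN_W u [] 0) (phi_harm_nonpos _ _)
  exact h.trans h2

theorem W_neg (u : List Bool) (ht : true ∈ u) (h : u.count true < u.count false) :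
    L phi (s * W [] u) < 0 := by
  rw [L_s_mul]
  have hz : 0 < u.count true := List.count_pos_iff.mpr ht
  refine lt_of_le_of_lt (L_le_single phi_harm_nonpos (NN_W u [])
    (ex (u.count true - 1) (u.count true))) ?_
  rw [ex_zero, ex_one, phi_harm, if_pos (by omega)]
  have h1 : 1 ≤ coeff (ex (u.count true - 1) (u.count true)) (W [] u) := by
    have := coeff_W u [] ht (u.count true) (by simpa using h)
    simpa using this
  have h2 : (0 : ℚ) < u.count true := by exact_mod_cast hz
  have h3 : (0 : ℚ) < (1 / 2) ^ (u.count true - 1 + u.count true)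
      * (1 / (4 * (u.count true : ℚ))) := by positivity
  nlinarith

/-- The count as a sum of values of `S`. -/
theorem card_le_S (k t : ℕ) (hk : 1 ≤ k) (ht : t < 2 ^ k - 1) :
    (((Finset.range (2 ^ k - 1)).filter
      (fun i => ds i + ds (refl (2 ^ k - 1) t i) ≤ k - 1)).card : ℚ)
      ≤ S k t 0 0 neg + S k t 1 1 neg := by
  have h1 : 1 ≤ 2 ^ k := Nat.one_le_two_pow
  have hnn : ∀ a b c c' : ℕ, (0 : ℚ) ≤ (if a + b + c = t + 2 ^ k * c' then
      neg ((ds a : ℤ) + ds b - k) else 0) := by
    intro a b c c'
    unfold neg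
    split_ifs <;> norm_num
  rw [S, S, ← Finset.sum_add_distrib, Finset.card_filter, Nat.cast_sum]
  refine le_trans ?_ (Finset.sum_le_sum_of_subset_of_nonneg
    (Finset.range_mono (show 2 ^ k - 1 ≤ 2 ^ k by omega)) ?_)
  · apply Finset.sum_le_sum
    intro i hi
    have hi' : i < 2 ^ k - 1 := Finset.mem_range.mp hi
    rw [← Finset.sum_add_distrib]
    have hj : refl (2 ^ k - 1) t i < 2 ^ k - 1 := refl_lt (by omega)
    set j := refl (2 ^ k - 1) t i with hjdef
    refine le_trans ?_ (Finset.single_le_sum (f := fun b => (if i + b + 0 = t + 2 ^ k * 0 then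
      neg ((ds i : ℤ) + ds b - k) else 0) + (if i + b + 1 = t + 2 ^ k * 1 then
      neg ((ds i : ℤ) + ds b - k) else 0)) (fun b _ => add_nonneg (hnn _ _ _ _) (hnn _ _ _ _))
      (Finset.mem_range.mpr (show j < 2 ^ k by omega)))
    by_cases hle : ds i + ds j ≤ k - 1
    · have hneg : neg ((ds i : ℤ) + ds j - k) = 1 := by
        unfold neg
        rw [if_pos]
        omega
      rw [if_pos hle]
      simp only [hneg]
      have hsum : i + j = t ∨ i + j + 1 = t + 2 ^ k := by
        rw [hjdef]
        unfold refl
        rcases Nat.lt_or_ge t i with h | h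
        · right
          rw [Nat.mod_eq_of_lt (by omega)]
          omega
        · left
          have e : t + (2 ^ k - 1) - i = (t - i) + (2 ^ k - 1) := by omega
          rw [e, Nat.add_mod_right, Nat.mod_eq_of_lt (by omega)]
          omega
      rcases hsum with h | h
      · rw [if_pos (by omega), if_neg (by omega)]
        norm_num
      · rw [if_neg (by omega), if_pos (by omega)]
        norm_num
    · rw [if_neg hle]
      simp only [Nat.cast_zero]
      exact add_nonneg (hnn _ _ _ _) (hnn _ _ _ _)
  · intro a _ _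
    exact add_nonneg (Finset.sum_nonneg (fun b _ => hnn _ _ _ _))
      (Finset.sum_nonneg (fun b _ => hnn _ _ _ _))

/-- **The Tu-Deng conjecture.** -/
theorem tuDeng (k t : ℕ) (hk : 1 ≤ k) (h0 : 0 < t) (ht : t < 2 ^ k - 1) :
    ((Finset.range (2 ^ k - 1)).filter
      (fun i => ds i + ds (refl (2 ^ k - 1) t i) ≤ k - 1)).card ≤ 2 ^ (k - 1) := by
  have hlt : t < 2 ^ k := by omega
  have hT := true_mem_bits k t hlt h0
  have hF := false_mem_bits k t ht
  have hcard := card_le_S k t hk ht
  have e0 := S_eq k t hlt 0 0 neg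
  have e1 := S_eq k t hlt 1 1 neg
  simp only [Fin.val_zero, Fin.val_one] at e0 e1
  have htr : (M (bits k t)).trace = M (bits k t) 0 0 + M (bits k t) 1 1 := by
    rw [Matrix.trace, Fin.sum_univ_two]; rfl
  have hsum : S k t 0 0 neg + S k t 1 1 neg = 2 ^ k * L (G neg) (M (bits k t)).trace := by
    rw [e0, e1, htr, map_add]
    ring
  rw [hsum, trace_eq _ hT hF, length_bits] at hcard
  have hp : (2 : ℚ) ^ k * (1 / 2) ^ k = 1 := by
    rw [← mul_pow]; norm_num
  have hp2 : (2 : ℚ) ^ k = 2 * 2 ^ (k - 1) := by
    have : k = (k - 1) + 1 := by omega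
    conv_lhs => rw [this]
    rw [pow_succ]; ring
  have hpos : (0 : ℚ) < 2 ^ k := by positivity
  have hmain : (((Finset.range (2 ^ k - 1)).filter
      (fun i => ds i + ds (refl (2 ^ k - 1) t i) ≤ k - 1)).card : ℚ)
      ≤ 2 ^ (k - 1) + (chi ((bits k t).count true) ((bits k t).count false) + 1 / 2)
        + 2 ^ k * L phi (s * W [] (bits k t)) := by
    have e : (2 : ℚ) ^ k * (1 / 2 + (1 / 2) ^ k
        * (chi ((bits k t).count true) ((bits k t).count false) + 1 / 2)
        + L phi (s * W [] (bits k t)))
        = 2 ^ (k - 1) + (chi ((bits k t).count true) ((bits k t).count false) + 1 / 2)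
        + 2 ^ k * L phi (s * W [] (bits k t)) := by
      have e' : (2 : ℚ) ^ k * (1 / 2 + (1 / 2) ^ k
        * (chi ((bits k t).count true) ((bits k t).count false) + 1 / 2)
        + L phi (s * W [] (bits k t)))
        = 2 ^ k * (1 / 2) + (2 ^ k * (1 / 2) ^ k)
          * (chi ((bits k t).count true) ((bits k t).count false) + 1 / 2)
        + 2 ^ k * L phi (s * W [] (bits k t)) := by ring
      rw [e', hp]
      rw [hp2]
      ring
    rw [e] at hcard
    exact hcard
  by_cases hlt2 : (bits k t).count true < (bits k t).count false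
  · have hneg := W_neg _ hT hlt2
    have hchi : chi ((bits k t).count true) ((bits k t).count false) + 1 / 2 = 1 := by
      rw [chi, if_pos hlt2]; norm_num
    rw [hchi] at hmain
    have h3 : (((Finset.range (2 ^ k - 1)).filter
      (fun i => ds i + ds (refl (2 ^ k - 1) t i) ≤ k - 1)).card : ℚ) < ((2 ^ (k - 1) + 1 : ℕ) : ℚ) := by
      push_cast
      have : (2 : ℚ) ^ k * L phi (s * W [] (bits k t)) < 0 := mul_neg_of_pos_of_neg hpos hneg
      linarith
    have h4 : ((Finset.range (2 ^ k - 1)).filter
      (fun i => ds i + ds (refl (2 ^ k - 1) t i) ≤ k - 1)).card < 2 ^ (k - 1) + 1 := by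
      exact_mod_cast h3
    omega
  · have hnp := W_nonpos (bits k t)
    have hchi : chi ((bits k t).count true) ((bits k t).count false) + 1 / 2 = 0 := by
      rw [chi, if_neg hlt2]; norm_num
    rw [hchi] at hmain
    have h3 : (((Finset.range (2 ^ k - 1)).filter
      (fun i => ds i + ds (refl (2 ^ k - 1) t i) ≤ k - 1)).card : ℚ) ≤ ((2 ^ (k - 1) : ℕ) : ℚ) := by
      push_cast
      have : (2 : ℚ) ^ k * L phi (s * W [] (bits k t)) ≤ 0 :=
        mul_nonpos_of_nonneg_of_nonpos hpos.le hnp
      linarith
    exact_mod_cast h3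

end Pool.Agent.Lib.MP_4ac633_lc.TD
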