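import Mathlib

/-!
# The transfer matrices of the Tu-Deng counting problem

Polynomial identities for products of the matrices `[[1, 0], [y, x]]` and `[[y, x], [0, 1]]`.
-/

set_option autoImplicit false

namespace Pool.Agent.Lib.MP_4ac633_lc.TD

open MvPolynomial

/-- Polynomials in two variables `x = X 0` and `y = X 1`. -/
abbrev R := MvPolynomial (Fin 2) ℚ

/-- The variable `x`. -/
noncomputable abbrev x : R := X 0

/-- The variable `y`. -/
noncomputable abbrev y : R := X 1

/-- The transfer matrix of a binary digit. -/
noncomputable def mat : Bool → Matrix (Fin 2) (Fin 2) R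
  | true => !![1, 0; y, x]
  | false => !![y, x; 0, 1]

/-- The transfer matrix of a word. -/
noncomputable def M : List Bool → Matrix (Fin 2) (Fin 2) R
  | [] => 1
  | b :: u => mat b * M u

/-- The letter monomial. -/
noncomputable def lt : Bool → R
  | true => x
  | false => y

/-- The monomial of a word. -/
noncomputable def wt : List Bool → R
  | [] => 1
  | b :: u => lt b * wt u

/-- The state in which a step is made at a letter. -/
def st : Bool → Fin 2
  | true => 1
  | false => 0

/-- The polynomial `1 - x - y`. -/
noncomputable def s : R := 1 - x - y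

/-- The differential operator `(1 - x) ∂ₓ - y ∂_y`. -/
noncomputable def D (f : R) : R := (1 - x) * pderiv 0 f - y * pderiv 1 f

theorem D_mul (f g : R) : D (f * g) = D f * g + f * D g := by
  simp only [D, Derivation.leibniz, smul_eq_mul]
  ring

theorem D_add (f g : R) : D (f + g) = D f + D g := by
  simp only [D, map_add]
  ring

theorem D_sub (f g : R) : D (f - g) = D f - D g := by
  simp only [D, map_sub]
  ring

theorem D_zero : D 0 = 0 := by simp [D]

theorem D_one : D 1 = 0 := by simp [D]

theorem D_x : D x = 1 - x := by
  simp [D, pderiv_X_of_ne (show (0 : Fin 2) ≠ 1 by decide)]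

theorem D_y : D y = - y := by
  simp [D, pderiv_X_of_ne (show (1 : Fin 2) ≠ 0 by decide)]

/-- The row vector `(-y, 1 - x)`. -/
noncomputable def r : Fin 2 → R := ![-y, 1 - x]

/-- The derivative of a matrix. -/
noncomputable def DM (A : Matrix (Fin 2) (Fin 2) R) : Matrix (Fin 2) (Fin 2) R := A.map D

theorem DM_mul (A B : Matrix (Fin 2) (Fin 2) R) : DM (A * B) = DM A * B + A * DM B := by
  ext i j
  simp only [DM, Matrix.map_apply, Matrix.mul_apply, Matrix.add_apply, Fin.sum_univ_two, D_add,
    D_mul]
  ring_nf

theorem DM_one : DM 1 = 0 := by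
  ext i j
  fin_cases i <;> fin_cases j <;> simp [DM, D_zero, D_one]

theorem DM_mat (b : Bool) (i j : Fin 2) : DM (mat b) i j = if i = st b then r j else 0 := by
  cases b <;> fin_cases i <;> fin_cases j <;> simp [DM, mat, st, r, D_zero, D_one, D_x, D_y]

theorem D_lt (b : Bool) : D (lt b) = r (st b) := by
  cases b <;> simp [lt, st, r, D_x, D_y]

/-- The nonnegative part of the row vector `r * M u`. -/
noncomputable def g : List Bool → Fin 2 → R
  | [] => 0
  | true :: u => fun j => x * g u j
  | false :: u => fun j => M u 1 j + y * g u j

theorem r_mul_M (u : List Bool) (j : Fin 2) :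
    r 0 * M u 0 j + r 1 * M u 1 j = wt u * r j + s * g u j := by
  induction u generalizing j with
  | nil =>
    have hj : j = 0 ∨ j = 1 := by fin_cases j <;> simp
    rcases hj with rfl | rfl <;> simp [M, wt, g, r]
  | cons b u ih =>
    have h := ih j
    cases b
    · simp only [M, mat, wt, lt, g, Matrix.mul_apply, Fin.sum_univ_two, Matrix.of_apply,
        Matrix.cons_val', Matrix.cons_val_zero, Matrix.cons_val_one, Matrix.cons_val_fin_one,
        Matrix.empty_val']
      have e : wt u * r j = r 0 * M u 0 j + r 1 * M u 1 j - s * g u j := by rw [h]; ring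
      rw [mul_assoc, e]
      simp only [r, s, Matrix.cons_val_zero, Matrix.cons_val_one, Matrix.cons_val_fin_one]
      ring
    · simp only [M, mat, wt, lt, g, Matrix.mul_apply, Fin.sum_univ_two, Matrix.of_apply,
        Matrix.cons_val', Matrix.cons_val_zero, Matrix.cons_val_one, Matrix.cons_val_fin_one,
        Matrix.empty_val']
      have e : wt u * r j = r 0 * M u 0 j + r 1 * M u 1 j - s * g u j := by rw [h]; ring
      rw [mul_assoc, e]
      simp only [r, s, Matrix.cons_val_zero, Matrix.cons_val_one, Matrix.cons_val_fin_one]
      ring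

theorem M_append (u v : List Bool) : M (u ++ v) = M u * M v := by
  induction u with
  | nil => simp [M]
  | cons b u ih => simp only [List.cons_append, M, ih, Matrix.mul_assoc]

theorem wt_append (u v : List Bool) : wt (u ++ v) = wt u * wt v := by
  induction u with
  | nil => simp [wt]
  | cons b u ih => simp only [List.cons_append, wt, ih, mul_assoc]

/-- The sum of the nonnegative parts over the cyclic cuts `p, b :: q` with `b` in the second
word. -/
noncomputable def W : List Bool → List Bool → R
  | _, [] => 0
  | p, b :: q => g (q ++ p) (st b) + W (p ++ [b]) q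

theorem trace_DM (w p : List Bool) :
    (M p * DM (M w)).trace = s * W p w + wt p * D (wt w) := by
  induction w generalizing p with
  | nil => simp [M, DM_one, W, wt, D_one]
  | cons b q ih =>
    have h1 : (M p * DM (M (b :: q))).trace
        = (M p * (DM (mat b) * M q)).trace + (M (p ++ [b]) * DM (M q)).trace := by
      have : M (p ++ [b]) = M p * mat b := by rw [M_append]; simp [M]
      rw [this]
      simp only [M, DM_mul, Matrix.mul_add, Matrix.trace_add, Matrix.mul_assoc]
    have h2 : (M p * (DM (mat b) * M q)).trace
        = r 0 * M (q ++ p) 0 (st b) + r 1 * M (q ++ p) 1 (st b) := by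
      rw [Matrix.trace_mul_comm, Matrix.mul_assoc, ← M_append]
      simp only [Matrix.trace, Matrix.diag_apply, Matrix.mul_apply, Fin.sum_univ_two, DM_mat]
      cases b <;> simp [st]
    rw [h1, h2, r_mul_M, ih, wt_append, wt_append]
    simp only [W, wt, D_mul, D_lt]
    ring

theorem D_trace (w : List Bool) : D ((M w).trace - wt w) = s * W [] w := by
  have h := trace_DM w []
  simp only [M, wt, one_mul] at h
  have h2 : (DM (M w)).trace = D (M w).trace := by
    simp [DM, Matrix.trace, Fin.sum_univ_two, D_add]
  rw [D_sub, ← h2, h]
  ring

end Pool.Agent.Lib.MP_4ac633_lc.TD
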