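import Mathlib

/-!
# Tails of the binomial distribution
-/

set_option autoImplicit false

open Finset

namespace Pool.Agent.Lib.MP_4ac633_lc

theorem tail_bound (M d : ℕ) (hM : 1 ≤ M) (hd : M ≤ 2 * d) :
    ((∑ i ∈ Icc d M, M.choose i : ℕ) : ℝ)
      ≤ 2 ^ M * Real.exp (-((2 * d - M : ℝ) ^ 2 / (2 * M))) := by
  have hMpos : (0 : ℝ) < M := by exact_mod_cast hM
  have hd' : (0 : ℝ) ≤ 2 * d - M := by
    have : (M : ℝ) ≤ 2 * d := by exact_mod_cast hd
    linarith
  set l : ℝ := (2 * d - M) / M with hl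
  have hl0 : 0 ≤ l := div_nonneg hd' hMpos.le
  have h1 : ((∑ i ∈ Icc d M, M.choose i : ℕ) : ℝ) * Real.exp (l * (2 * d - M))
      ≤ (Real.exp l + Real.exp (-l)) ^ M := by
    rw [add_pow]
    push_cast
    rw [sum_mul]
    calc ∑ i ∈ Icc d M, (M.choose i : ℝ) * Real.exp (l * (2 * d - M))
        ≤ ∑ i ∈ Icc d M, Real.exp l ^ i * Real.exp (-l) ^ (M - i) * (M.choose i : ℝ) := by
          apply sum_le_sum
          intro i hi
          rw [mem_Icc] at hi
          have e : Real.exp l ^ i * Real.exp (-l) ^ (M - i) = Real.exp (l * (2 * i - M)) := by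
            rw [← Real.exp_nat_mul, ← Real.exp_nat_mul, ← Real.exp_add, Nat.cast_sub hi.2]
            congr 1
            ring
          rw [e, mul_comm]
          apply mul_le_mul_of_nonneg_right _ (Nat.cast_nonneg _)
          apply Real.exp_le_exp.mpr
          apply mul_le_mul_of_nonneg_left _ hl0
          have : (d : ℝ) ≤ i := by exact_mod_cast hi.1
          linarith
      _ ≤ ∑ i ∈ range (M + 1), Real.exp l ^ i * Real.exp (-l) ^ (M - i) * (M.choose i : ℝ) := by
          apply sum_le_sum_of_subset_of_nonneg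
          · intro i hi
            rw [mem_Icc] at hi
            rw [mem_range]
            omega
          · intro i _ _
            positivity
  have h2 : (Real.exp l + Real.exp (-l)) ^ M ≤ 2 ^ M * Real.exp (M * (l ^ 2 / 2)) := by
    have : Real.exp l + Real.exp (-l) = 2 * Real.cosh l := by
      rw [Real.cosh_eq]; ring
    rw [this, mul_pow, Real.exp_nat_mul]
    apply mul_le_mul_of_nonneg_left _ (by positivity)
    exact pow_le_pow_left₀ (Real.cosh_pos l).le (Real.cosh_le_exp_half_sq l) M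
  have h3 := h1.trans h2
  have h4 : Real.exp (M * (l ^ 2 / 2))
      = Real.exp (-((2 * d - M : ℝ) ^ 2 / (2 * M))) * Real.exp (l * (2 * d - M)) := by
    rw [← Real.exp_add]
    congr 1
    rw [hl]
    field_simp
    ring
  rw [h4, ← mul_assoc] at h3
  exact le_of_mul_le_mul_right h3 (Real.exp_pos _)

/-- The numerical condition in the pigeonhole argument. -/
theorem numeric (m r d : ℕ) (hr : 1 ≤ r) (hrm : r ≤ m)
    (hd : (m - r / 2 : ℝ) + Real.sqrt ((m - r / 2 : ℝ) * Real.log (2 * r + 2)) ≤ d) :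
    r * ∑ i ∈ Icc d (2 * m - r), (2 * m - r).choose i
      + ∑ i ∈ Icc (d + 1) (2 * m - r), (2 * m - r).choose i + 4 ^ (m - r) / 2
      < 2 ^ (2 * m - r) := by
  obtain ⟨M, hM⟩ : ∃ M, M = 2 * m - r := ⟨_, rfl⟩
  rw [← hM]
  have hMr : (M : ℝ) = 2 * m - r := by
    rw [hM, Nat.cast_sub (by omega)]; push_cast; ring
  have hMge : r ≤ M := by omega
  have hMpos : (0 : ℝ) < M := by
    have : 1 ≤ M := by omega
    exact_mod_cast this
  have hlog : 0 < Real.log (2 * r + 2) := by
    apply Real.log_pos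
    have : (0 : ℝ) ≤ r := Nat.cast_nonneg r
    linarith
  have hhalf : (m - r / 2 : ℝ) = M / 2 := by rw [hMr]; ring
  rw [hhalf] at hd
  have hsq0 := Real.sqrt_nonneg (M / 2 * Real.log (2 * r + 2))
  have hd2 : M ≤ 2 * d := by
    have : (M : ℝ) ≤ 2 * d := by linarith
    exact_mod_cast this
  have hsq : 2 * M * Real.log (2 * r + 2) ≤ (2 * d - M : ℝ) ^ 2 := by
    have h1 : 2 * Real.sqrt (M / 2 * Real.log (2 * r + 2)) ≤ 2 * d - M := by linarith
    have h2 := pow_le_pow_left₀ (by positivity) h1 2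
    rw [mul_pow, Real.sq_sqrt (by positivity)] at h2
    linarith
  have hexp : Real.exp (-((2 * d - M : ℝ) ^ 2 / (2 * M))) ≤ 1 / (2 * r + 2) := by
    have h1 : Real.log (2 * r + 2) ≤ (2 * d - M : ℝ) ^ 2 / (2 * M) := by
      rw [le_div_iff₀ (by positivity)]
      linarith
    calc Real.exp (-((2 * d - M : ℝ) ^ 2 / (2 * M)))
        ≤ Real.exp (-(Real.log (2 * r + 2))) := Real.exp_le_exp.mpr (by linarith)
      _ = 1 / (2 * r + 2) := by
          rw [Real.exp_neg, Real.exp_log (by positivity), one_div]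
  have ht := tail_bound M d (by omega) hd2
  have hmono : ∑ i ∈ Icc (d + 1) M, M.choose i ≤ ∑ i ∈ Icc d M, M.choose i := by
    apply sum_le_sum_of_subset
    exact Icc_subset_Icc_left (by omega)
  obtain ⟨T, hT⟩ : ∃ T, T = ∑ i ∈ Icc d M, M.choose i := ⟨_, rfl⟩
  rw [← hT] at hmono ht ⊢
  have hTle : (r + 1) * (T : ℝ) ≤ 2 ^ M / 2 := by
    have h1 : (T : ℝ) ≤ 2 ^ M * (1 / (2 * r + 2)) :=
      ht.trans (mul_le_mul_of_nonneg_left hexp (by positivity))
    have h2 : (r + 1 : ℝ) * (2 ^ M * (1 / (2 * r + 2))) = 2 ^ M / 2 := by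
      field_simp
    rw [← h2]
    exact mul_le_mul_of_nonneg_left h1 (by positivity)
  have hTle' : 2 * ((r + 1) * T) ≤ 2 ^ M := by
    have : (2 : ℝ) * ((r + 1) * T) ≤ 2 ^ M := by linarith
    exact_mod_cast this
  have h4 : 4 ^ (m - r) * 2 ≤ 2 ^ M := by
    have : (4 : ℕ) = 2 ^ 2 := by norm_num
    rw [this, ← pow_mul, ← pow_succ]
    exact Nat.pow_le_pow_right (by norm_num) (by omega)
  have h5 : 1 ≤ 2 ^ M := Nat.one_le_two_pow
  have h6 : r * T + T = (r + 1) * T := by ring
  have h7 : 4 ^ (m - r) ≥ 1 := Nat.one_le_pow _ _ (by norm_num)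
  generalize hX : 2 ^ M = X at *
  generalize hY : 4 ^ (m - r) = Y at *
  generalize hQ : (r + 1) * T = Q at *
  omega

theorem sq_lt_two_pow (m : ℕ) (hm : 5 ≤ m) : m * (m + 1) + 1 < 2 ^ m := by
  induction m, hm using Nat.le_induction with
  | base => norm_num
  | succ n hn ih =>
    rw [pow_succ]
    nlinarith

theorem numeric_top (m : ℕ) (hm : 5 ≤ m) :
    m * ∑ i ∈ Icc (m - 1) (2 * m - m), (2 * m - m).choose i
      + ∑ i ∈ Icc (m - 1 + 1) (2 * m - m), (2 * m - m).choose i + 4 ^ (m - m) / 2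
      < 2 ^ (2 * m - m) := by
  have e1 : 2 * m - m = m := by omega
  have e2 : m - 1 + 1 = m := by omega
  rw [e1, e2, Nat.sub_self, pow_zero]
  have e3 : ∑ i ∈ Icc (m - 1) m, m.choose i = m + 1 := by
    have : Icc (m - 1) m = {m - 1, m} := by
      ext i
      simp only [mem_Icc, mem_insert, mem_singleton]
      omega
    rw [this, sum_pair (by omega), Nat.choose_self, Nat.choose_symm (n := m) (k := 1) (by omega),
      Nat.choose_one_right]
  rw [e3, Icc_self, sum_singleton, Nat.choose_self]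
  have := sq_lt_two_pow m hm
  omega

end Pool.Agent.Lib.MP_4ac633_lc
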