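import Pool.Agent.Lib.MP_4ac633_lc.FieldRep

/-!
# The vanishing argument

A sparse exponential sum that vanishes at sufficiently many consecutive exponents is zero, and the
resulting vanishing statement for low degree functions on `K × K`.
-/

set_option autoImplicit false
set_option linter.unusedSectionVars false

open Finset

namespace Pool.Agent.Lib.MP_4ac633_lc

/-- A sum of `A.card` exponentials with distinct nonzero nodes vanishing at `T ≥ A.card`
consecutive exponents has zero coefficients. -/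
theorem sparse_zero {K ι : Type} [Field K] (A : Finset ι) (x h : ι → K)
    (hinj : Set.InjOn x (A : Set ι)) (hx : ∀ a ∈ A, x a ≠ 0) (l0 T : ℕ) (hT : A.card ≤ T)
    (hz : ∀ l < T, ∑ a ∈ A, h a * x a ^ (l0 + l) = 0) : ∀ a ∈ A, h a = 0 := by
  classical
  intro a ha
  set P : Polynomial K := ∏ b ∈ A.erase a, (Polynomial.X - Polynomial.C (x b)) with hP
  have hdeg : P.natDegree < T := by
    rw [hP, Polynomial.natDegree_finsetProd_X_sub_C_eq_card]
    have : (A.erase a).card < A.card := card_erase_lt_of_mem ha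
    omega
  have key : ∑ l ∈ range T, P.coeff l * (∑ b ∈ A, h b * x b ^ (l0 + l)) = 0 := by
    apply sum_eq_zero
    intro l hl
    rw [hz l (mem_range.mp hl), mul_zero]
  have swap : ∑ l ∈ range T, P.coeff l * (∑ b ∈ A, h b * x b ^ (l0 + l))
      = ∑ b ∈ A, h b * x b ^ l0 * P.eval (x b) := by
    simp only [mul_sum]
    rw [sum_comm]
    apply sum_congr rfl
    intro b _
    rw [Polynomial.eval_eq_sum_range' hdeg, mul_sum]
    apply sum_congr rfl
    intro l _
    rw [pow_add]; ring
  rw [swap, sum_eq_single_of_mem a ha] at key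
  · have hPa : P.eval (x a) ≠ 0 := by
      rw [hP, Polynomial.eval_prod]
      apply prod_ne_zero_iff.mpr
      intro b hb
      rw [Polynomial.eval_sub, Polynomial.eval_X, Polynomial.eval_C, sub_ne_zero]
      intro hab
      exact (mem_erase.mp hb).1 (hinj (mem_coe.mpr (mem_erase.mp hb).2) (mem_coe.mpr ha) hab.symm)
    have h2 : x a ^ l0 ≠ 0 := pow_ne_zero _ (hx a ha)
    rcases mul_eq_zero.mp key with h1 | h1
    · rcases mul_eq_zero.mp h1 with h3 | h3
      · exact h3
      · exact absurd h3 h2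
    · exact absurd h1 hPa
  · intro b hb hba
    have : P.eval (x b) = 0 := by
      rw [hP, Polynomial.eval_prod]
      apply prod_eq_zero (mem_erase.mpr ⟨hba, hb⟩)
      simp
    rw [this, mul_zero]

theorem card_fibre_le (N d t : ℕ) :
    ((I N d).filter (fun q => (q.1 + q.2) % N = t)).card
      ≤ ((range N).filter (fun i => ds i + ds (refl N t i) ≤ d)).card := by
  apply card_le_card_of_injOn (fun q => q.1)
  · intro q hq
    have hq' := mem_coe.mp hq
    rw [mem_filter, I, mem_filter, mem_product, mem_range, mem_range] at hq'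
    obtain ⟨⟨⟨h1, h2⟩, h3⟩, h4⟩ := hq'
    rw [mem_coe, mem_filter, mem_range]
    refine ⟨h1, ?_⟩
    have : refl N t q.1 = q.2 := by
      unfold refl
      rw [← h4]
      rcases Nat.lt_or_ge (q.1 + q.2) N with h | h
      · rw [Nat.mod_eq_of_lt h]
        have e : q.1 + q.2 + N - q.1 = q.2 + N := by omega
        rw [e, Nat.add_mod_right, Nat.mod_eq_of_lt h2]
      · have e1 : (q.1 + q.2) % N = q.1 + q.2 - N := by
          rw [Nat.mod_eq_sub_mod h, Nat.mod_eq_of_lt (by omega)]
        rw [e1]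
        have e : q.1 + q.2 - N + N - q.1 = q.2 := by omega
        rw [e, Nat.mod_eq_of_lt h2]
    rw [this]
    exact h3
  · intro q hq q' hq' hqq
    have hq1 := mem_coe.mp hq
    have hq2 := mem_coe.mp hq'
    rw [mem_filter, I, mem_filter, mem_product, mem_range, mem_range] at hq1 hq2
    obtain ⟨⟨⟨h1, h2⟩, h3⟩, h4⟩ := hq1
    obtain ⟨⟨⟨h1', h2'⟩, h3'⟩, h4'⟩ := hq2
    have hfst : q.1 = q'.1 := hqq
    have hsnd : q.2 = q'.2 := by
      have h5 : (q.1 + q.2) % N = (q.1 + q'.2) % N := by rw [h4, hfst, h4']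
      have h6 : q.2 ≡ q'.2 [MOD N] := Nat.ModEq.add_left_cancel' q.1 h5
      have h7 : q.2 % N = q'.2 % N := h6
      rwa [Nat.mod_eq_of_lt h2, Nat.mod_eq_of_lt h2'] at h7
    exact Prod.ext hfst hsnd

variable {K : Type} [Field K] [Finite K] [Algebra (ZMod 2) K]

/-- A function of degree at most `d` on `K × K` which vanishes on the nonzero points of `T`
consecutive lines is zero as soon as the Tu-Deng counting function is at most `T`. -/
theorem eq_zero_of_vanish (m d T l0 : ℕ) (hm : 1 ≤ m) (hd : d < m)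
    (hK : ∀ x : K, x ^ (2 ^ m) = x) (α : K) (hα0 : α ≠ 0)
    (hα : ∀ i < 2 ^ m - 1, ∀ j < 2 ^ m - 1, α ^ i = α ^ j → i = j)
    (hcount : ∀ t < 2 ^ m - 1, ((range (2 ^ m - 1)).filter
      (fun i => ds i + ds (refl (2 ^ m - 1) t i) ≤ d)).card ≤ T)
    {h : K × K → K} (hh : h ∈ W K d)
    (hv : ∀ l < T, ∀ r < 2 ^ m - 1, h (α ^ (l0 + l + r), α ^ r) = 0) : ∀ p, h p = 0 := by
  classical
  obtain ⟨c, hc⟩ := exists_coeffs m d hm hd hK hh
  set N := 2 ^ m - 1 with hN
  have hNpos : 0 < N := by
    have : 2 ≤ 2 ^ m := by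
      calc 2 = 2 ^ 1 := by norm_num
        _ ≤ 2 ^ m := Nat.pow_le_pow_right (by norm_num) hm
    omega
  have hαN : α ^ N = 1 := by
    have h1 := hK α
    have h2 : 2 ^ m = N + 1 := by
      have : 1 ≤ 2 ^ m := Nat.one_le_two_pow
      omega
    rw [h2, pow_succ] at h1
    exact mul_right_cancel₀ hα0 (by rw [h1, one_mul])
  have hmod : ∀ a r : ℕ, α ^ (r * a) = (α ^ (a % N)) ^ r := by
    intro a r
    rw [← pow_mul, Nat.mul_comm (a % N) r]
    conv_lhs => rw [← Nat.div_add_mod a N, Nat.mul_add, pow_add, Nat.mul_left_comm, pow_mul, hαN,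
      one_pow, one_mul]
  -- the coefficient of the character `t`
  have step1 : ∀ l < T, ∀ t ∈ range N,
      ∑ q ∈ (I N d).filter (fun q => (q.1 + q.2) % N = t), c q * (α ^ q.1) ^ (l0 + l) = 0 := by
    intro l hl
    apply sparse_zero (range N) (fun t => α ^ t)
      (fun t => ∑ q ∈ (I N d).filter (fun q => (q.1 + q.2) % N = t),
        c q * (α ^ q.1) ^ (l0 + l)) ?_ ?_ 0 N (by simp)
    · intro r hr
      rw [← hv l hl r hr, hc]
      symm
      rw [← sum_fiberwise_of_maps_to (s := I N d) (t := range N)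
        (g := fun q => (q.1 + q.2) % N) (fun q _ => mem_range.mpr (Nat.mod_lt _ hNpos))]
      apply sum_congr rfl
      intro t _
      rw [sum_mul]
      apply sum_congr rfl
      intro q hq
      have hqt : (q.1 + q.2) % N = t := (mem_filter.mp hq).2
      rw [Nat.zero_add, ← hqt, ← hmod]
      ring
    · intro i hi j hj hij
      exact hα i (mem_range.mp (mem_coe.mp hi)) j (mem_range.mp (mem_coe.mp hj)) hij
    · intro t _
      exact pow_ne_zero _ hα0
  have step2 : ∀ q ∈ I N d, c q = 0 := by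
    intro q hq
    have ht : (q.1 + q.2) % N < N := Nat.mod_lt _ hNpos
    refine sparse_zero ((I N d).filter (fun q' => (q'.1 + q'.2) % N = (q.1 + q.2) % N))
      (fun q' => α ^ q'.1) c ?_ ?_ l0 T ?_ ?_ q (mem_filter.mpr ⟨hq, rfl⟩)
    · intro a ha b hb hab
      have ha' := mem_coe.mp ha
      have hb' := mem_coe.mp hb
      rw [mem_filter, I, mem_filter, mem_product, mem_range, mem_range] at ha' hb'
      have h1 : a.1 = b.1 := hα a.1 ha'.1.1.1 b.1 hb'.1.1.1 hab
      have h2 : a.2 = b.2 := by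
        have h5 : (a.1 + a.2) % N = (a.1 + b.2) % N := by
          rw [ha'.2, h1, hb'.2]
        have h6 : a.2 ≡ b.2 [MOD N] := Nat.ModEq.add_left_cancel' a.1 h5
        have h7 : a.2 % N = b.2 % N := h6
        rwa [Nat.mod_eq_of_lt ha'.1.1.2, Nat.mod_eq_of_lt hb'.1.1.2] at h7
      exact Prod.ext h1 h2
    · intro a _
      exact pow_ne_zero _ hα0
    · exact (card_fibre_le N d _).trans (hcount _ ht)
    · intro l hl
      exact step1 l hl _ (mem_range.mpr ht)
  intro p
  rw [hc p]
  apply sum_eq_zero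
  intro q hq
  rw [step2 q hq, zero_mul]

end Pool.Agent.Lib.MP_4ac633_lc
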