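import Pool.Agent.Lib.MP_4ac633_lc.Bent

/-!
# The vanishing argument with vanishing on the axes

If a low degree function on `K × K` vanishes on `T` consecutive lines and on both axes, then it is
enough to count the exponent pairs with both entries nonzero.
-/

set_option autoImplicit false
set_option linter.unusedSectionVars false

open Finset

namespace Pool.Agent.Lib.MP_4ac633_lc

theorem card_fibre_axes_le (N d t : ℕ) :
    ((I N d).filter (fun q => (q.1 ≠ 0 ∧ q.2 ≠ 0) ∧ (q.1 + q.2) % N = t)).card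
      ≤ ((range N).filter
          (fun i => i ≠ 0 ∧ refl N t i ≠ 0 ∧ ds i + ds (refl N t i) ≤ d)).card := by
  apply card_le_card_of_injOn (fun q => q.1)
  · intro q hq
    have hq' := mem_coe.mp hq
    rw [mem_filter, I, mem_filter, mem_product, mem_range, mem_range] at hq'
    obtain ⟨⟨⟨h1, h2⟩, h3⟩, ⟨h5, h6⟩, h4⟩ := hq'
    rw [mem_coe, mem_filter, mem_range]
    have : refl N t q.1 = q.2 := by
      unfold refl
      rw [← h4]
      rcases Nat.lt_or_ge (q.1 + q.2) N with h | h
      · rw [Nat.mod_eq_of_lt h]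
        have e : q.1 + q.2 + N - q.1 = q.2 + N := by omega
        rw [e, Nat.add_mod_right, Nat.mod_eq_of_lt h2]
      · have e1 : (q.1 + q.2) % N = q.1 + q.2 - N := by
          rw [Nat.mod_eq_sub_mod h, Nat.mod_eq_of_lt (by omega)]
        rw [e1]
        have e : q.1 + q.2 - N + N - q.1 = q.2 := by omega
        rw [e, Nat.mod_eq_of_lt h2]
    rw [this]
    exact ⟨h1, h5, h6, h3⟩
  · intro q hq q' hq' hqq
    have hq1 := mem_coe.mp hq
    have hq2 := mem_coe.mp hq'
    rw [mem_filter, I, mem_filter, mem_product, mem_range, mem_range] at hq1 hq2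
    obtain ⟨⟨⟨h1, h2⟩, h3⟩, _, h4⟩ := hq1
    obtain ⟨⟨⟨h1', h2'⟩, h3'⟩, _, h4'⟩ := hq2
    have hfst : q.1 = q'.1 := hqq
    have hsnd : q.2 = q'.2 := by
      have h5 : (q.1 + q.2) % N = (q.1 + q'.2) % N := by rw [h4, hfst, h4']
      have h6 : q.2 ≡ q'.2 [MOD N] := Nat.ModEq.add_left_cancel' q.1 h5
      have h7 : q.2 % N = q'.2 % N := h6
      rwa [Nat.mod_eq_of_lt h2, Nat.mod_eq_of_lt h2'] at h7
    exact Prod.ext hfst hsnd

variable {K : Type} [Field K] [Finite K] [Algebra (ZMod 2) K]

/-- A function of degree at most `d` on `K × K` which vanishes on both axes and on the nonzero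
points of `T` consecutive lines is zero as soon as the Tu-Deng counting function, restricted to
pairs of nonzero exponents, is at most `T`. -/
theorem eq_zero_of_vanish_axes (m d T l0 : ℕ) (hm : 1 ≤ m) (hd : d < m)
    (hK : ∀ x : K, x ^ (2 ^ m) = x) (α : K) (hα0 : α ≠ 0)
    (hα : ∀ i < 2 ^ m - 1, ∀ j < 2 ^ m - 1, α ^ i = α ^ j → i = j)
    (hcount : ∀ t < 2 ^ m - 1, ((range (2 ^ m - 1)).filter
      (fun i => i ≠ 0 ∧ refl (2 ^ m - 1) t i ≠ 0 ∧
        ds i + ds (refl (2 ^ m - 1) t i) ≤ d)).card ≤ T)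
    {h : K × K → K} (hh : h ∈ W K d) (hx : ∀ x, h (x, 0) = 0) (hy : ∀ y, h (0, y) = 0)
    (hv : ∀ l < T, ∀ r < 2 ^ m - 1, h (α ^ (l0 + l + r), α ^ r) = 0) : ∀ p, h p = 0 := by
  classical
  obtain ⟨c, hc⟩ := exists_coeffs m d hm hd hK hh
  set N := 2 ^ m - 1 with hN
  have hNpos : 0 < N := by
    have : 2 ≤ 2 ^ m := by
      calc 2 = 2 ^ 1 := by norm_num
        _ ≤ 2 ^ m := Nat.pow_le_pow_right (by norm_num) hm
    omega
  have hαN : α ^ N = 1 := by
    have h1 := hK α
    have h2 : 2 ^ m = N + 1 := by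
      have : 1 ≤ 2 ^ m := Nat.one_le_two_pow
      omega
    rw [h2, pow_succ] at h1
    exact mul_right_cancel₀ hα0 (by rw [h1, one_mul])
  have hmod : ∀ a r : ℕ, α ^ (r * a) = (α ^ (a % N)) ^ r := by
    intro a r
    rw [← pow_mul, Nat.mul_comm (a % N) r]
    conv_lhs => rw [← Nat.div_add_mod a N, Nat.mul_add, pow_add, Nat.mul_left_comm, pow_mul, hαN,
      one_pow, one_mul]
  -- the coefficients on the axes vanish
  have hzeroI : ∀ (S : Finset (ℕ × ℕ)),
      (∀ q ∈ S, ∀ q' ∈ S, q ≠ q' → q.1 + q.2 ≠ q'.1 + q'.2) →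
      (∀ q ∈ S, q.1 + q.2 < N) →
      (∀ r < N, ∑ q ∈ S, c q * α ^ ((q.1 + q.2) * r) = 0) → ∀ q ∈ S, c q = 0 := by
    intro S hSinj hSN hS
    apply sparse_zero S (fun q => α ^ (q.1 + q.2)) c ?_ ?_ 0 N ?_ ?_
    · intro a ha b hb hab
      by_contra hne
      exact hSinj a (mem_coe.mp ha) b (mem_coe.mp hb) hne
        (hα _ (hSN a (mem_coe.mp ha)) _ (hSN b (mem_coe.mp hb)) hab)
    · intro a _
      exact pow_ne_zero _ hα0
    · calc S.card = (S.image (fun q => q.1 + q.2)).card := by
            rw [card_image_of_injOn]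
            intro a ha b hb hab
            by_contra hne
            exact hSinj a (mem_coe.mp ha) b (mem_coe.mp hb) hne hab
        _ ≤ (range N).card := by
            apply card_le_card
            intro a ha
            obtain ⟨q, hq, rfl⟩ := mem_image.mp ha
            exact mem_range.mpr (hSN q hq)
        _ = N := card_range N
    · intro l hl
      rw [← hS l hl]
      apply sum_congr rfl
      intro q _
      rw [Nat.zero_add, ← pow_mul]
  have hax1 : ∀ q ∈ (I N d).filter (fun q => q.2 = 0), c q = 0 := by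
    apply hzeroI
    · intro q hq q' hq' hne he
      have h1 := (mem_filter.mp hq).2
      have h2 := (mem_filter.mp hq').2
      apply hne
      apply Prod.ext
      · omega
      · rw [h1, h2]
    · intro q hq
      have h1 := (mem_filter.mp hq).1
      have h2 := (mem_filter.mp hq).2
      rw [I, mem_filter, mem_product, mem_range, mem_range] at h1
      omega
    · intro r _
      rw [← hx (α ^ r), hc, sum_filter]
      apply sum_congr rfl
      intro q _
      by_cases h2 : q.2 = 0
      · rw [if_pos h2, h2]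
        simp only [pow_zero, mul_one, Nat.add_zero]
        rw [← pow_mul, Nat.mul_comm]
      · rw [if_neg h2]
        simp only
        rw [zero_pow h2]
        simp
  have hax2 : ∀ q ∈ (I N d).filter (fun q => q.1 = 0), c q = 0 := by
    apply hzeroI
    · intro q hq q' hq' hne he
      have h1 := (mem_filter.mp hq).2
      have h2 := (mem_filter.mp hq').2
      apply hne
      apply Prod.ext
      · rw [h1, h2]
      · omega
    · intro q hq
      have h1 := (mem_filter.mp hq).1
      have h2 := (mem_filter.mp hq).2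
      rw [I, mem_filter, mem_product, mem_range, mem_range] at h1
      omega
    · intro r _
      rw [← hy (α ^ r), hc, sum_filter]
      apply sum_congr rfl
      intro q _
      by_cases h2 : q.1 = 0
      · rw [if_pos h2, h2]
        simp only [pow_zero, one_mul, Nat.zero_add]
        rw [← pow_mul, Nat.mul_comm]
      · rw [if_neg h2]
        simp only
        rw [zero_pow h2]
        simp
  -- the coefficient of the character `t`
  have step1 : ∀ l < T, ∀ t ∈ range N,
      ∑ q ∈ (I N d).filter (fun q => (q.1 + q.2) % N = t), c q * (α ^ q.1) ^ (l0 + l) = 0 := by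
    intro l hl
    apply sparse_zero (range N) (fun t => α ^ t)
      (fun t => ∑ q ∈ (I N d).filter (fun q => (q.1 + q.2) % N = t),
        c q * (α ^ q.1) ^ (l0 + l)) ?_ ?_ 0 N (by simp)
    · intro r hr
      rw [← hv l hl r hr, hc]
      symm
      rw [← sum_fiberwise_of_maps_to (s := I N d) (t := range N)
        (g := fun q => (q.1 + q.2) % N) (fun q _ => mem_range.mpr (Nat.mod_lt _ hNpos))]
      apply sum_congr rfl
      intro t _
      rw [sum_mul]
      apply sum_congr rfl
      intro q hq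
      have hqt : (q.1 + q.2) % N = t := (mem_filter.mp hq).2
      rw [Nat.zero_add, ← hqt, ← hmod]
      ring
    · intro i hi j hj hij
      exact hα i (mem_range.mp (mem_coe.mp hi)) j (mem_range.mp (mem_coe.mp hj)) hij
    · intro t _
      exact pow_ne_zero _ hα0
  have step1' : ∀ l < T, ∀ t ∈ range N,
      ∑ q ∈ (I N d).filter (fun q => (q.1 ≠ 0 ∧ q.2 ≠ 0) ∧ (q.1 + q.2) % N = t),
        c q * (α ^ q.1) ^ (l0 + l) = 0 := by
    intro l hl t ht
    rw [← step1 l hl t ht]
    apply sum_subset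
    · intro q hq
      rw [mem_filter] at hq ⊢
      exact ⟨hq.1, hq.2.2⟩
    · intro q hq hq'
      rw [mem_filter] at hq hq'
      by_cases h1 : q.1 = 0
      · rw [hax2 q (mem_filter.mpr ⟨hq.1, h1⟩), zero_mul]
      by_cases h2 : q.2 = 0
      · rw [hax1 q (mem_filter.mpr ⟨hq.1, h2⟩), zero_mul]
      exact absurd ⟨hq.1, ⟨h1, h2⟩, hq.2⟩ hq'
  have step2 : ∀ q ∈ I N d, c q = 0 := by
    intro q hq
    by_cases h1 : q.1 = 0
    · exact hax2 q (mem_filter.mpr ⟨hq, h1⟩)
    by_cases h2 : q.2 = 0
    · exact hax1 q (mem_filter.mpr ⟨hq, h2⟩)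
    have ht : (q.1 + q.2) % N < N := Nat.mod_lt _ hNpos
    refine sparse_zero ((I N d).filter
        (fun q' => (q'.1 ≠ 0 ∧ q'.2 ≠ 0) ∧ (q'.1 + q'.2) % N = (q.1 + q.2) % N))
      (fun q' => α ^ q'.1) c ?_ ?_ l0 T ?_ ?_ q (mem_filter.mpr ⟨hq, ⟨h1, h2⟩, rfl⟩)
    · intro a ha b hb hab
      have ha' := mem_coe.mp ha
      have hb' := mem_coe.mp hb
      rw [mem_filter, I, mem_filter, mem_product, mem_range, mem_range] at ha' hb'
      have h1 : a.1 = b.1 := hα a.1 ha'.1.1.1 b.1 hb'.1.1.1 hab
      have h2 : a.2 = b.2 := by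
        have h5 : (a.1 + a.2) % N = (a.1 + b.2) % N := by
          rw [ha'.2.2, h1, hb'.2.2]
        have h6 : a.2 ≡ b.2 [MOD N] := Nat.ModEq.add_left_cancel' a.1 h5
        have h7 : a.2 % N = b.2 % N := h6
        rwa [Nat.mod_eq_of_lt ha'.1.1.2, Nat.mod_eq_of_lt hb'.1.1.2] at h7
      exact Prod.ext h1 h2
    · intro a _
      exact pow_ne_zero _ hα0
    · exact (card_fibre_axes_le N d _).trans (hcount _ ht)
    · intro l hl
      exact step1' l hl _ (mem_range.mpr ht)
  intro p
  rw [hc p]
  apply sum_eq_zero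
  intro q hq
  rw [step2 q hq, zero_mul]

end Pool.Agent.Lib.MP_4ac633_lc
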